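import Pool.Agent.K6.H81.KS.Stm

/-! Piece ARI of the project of helper81 (`MP_c25521_co`, `MP_c4bd07_co`), by helper36. -/

set_option autoImplicit false

namespace Pool.Agent.K6.H81.KS

open Finset

namespace ARIp

theorem sq_sum {s : ℕ} (m : Fin s → ℕ) : (∑ i, m i) ^ 2 = (∑ i, m i ^ 2) + 2 * SS m := by
  have h1 : ∀ i j : Fin s, m i * m j = (if i = j then m i ^ 2 else 0) +
      ((if i < j then m i * m j else 0) + (if j < i then m j * m i else 0)) := by
    intro i j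
    rcases lt_trichotomy i j with h | h | h
    · simp [h, h.ne, h.not_gt]
    · subst h
      simp [sq]
    · simp [h, h.ne', h.not_gt, mul_comm]
  have h2 : ∑ i, ∑ j, (if j < i then m j * m i else 0) = SS m := by
    unfold SS
    rw [sum_comm]
  rw [sq, sum_mul_sum, sum_congr rfl fun i _ => sum_congr rfl fun j _ => h1 i j]
  simp only [sum_add_distrib]
  rw [h2]
  have h3 : ∑ i : Fin s, ∑ j : Fin s, (if i = j then m i ^ 2 else 0) = ∑ i, m i ^ 2 := by
    simp
  rw [h3]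
  unfold SS
  ring

end ARIp

theorem ARI : S_ARI := by
  intro s m
  have hs : 0 ≤ Real.sqrt (1 + 8 * (SS m : ℝ)) := Real.sqrt_nonneg _
  have hS : (0 : ℝ) ≤ SS m := Nat.cast_nonneg _
  refine ⟨?_, ?_, ARIp.sq_sum m⟩
  · have h1 : (1 + Real.sqrt (1 + 8 * (SS m : ℝ))) / 2 < (tt m : ℝ) + 1 := Nat.lt_floor_add_one _
    have h2 : Real.sqrt (1 + 8 * (SS m : ℝ)) < 2 * (tt m : ℝ) + 1 := by linarith
    have h3 : 1 + 8 * (SS m : ℝ) < (2 * (tt m : ℝ) + 1) ^ 2 := by
      have h4 := Real.sq_sqrt (by positivity : (0 : ℝ) ≤ 1 + 8 * (SS m : ℝ))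
      have h5 : (0 : ℝ) ≤ (tt m : ℝ) := Nat.cast_nonneg _
      nlinarith
    have h6 : 1 + 8 * SS m < (2 * tt m + 1) ^ 2 := by exact_mod_cast h3
    have h7 : 2 * SS m < tt m * (tt m + 1) := by nlinarith
    obtain ⟨k, hk⟩ := Nat.even_mul_succ_self (tt m)
    have h8 : tt m * (tt m + 1) = k + k := hk
    omega
  · unfold tt
    rw [Nat.one_le_floor_iff]
    have : 1 ≤ Real.sqrt (1 + 8 * (SS m : ℝ)) := by
      rw [Real.one_le_sqrt]
      linarith
    linarith

end Pool.Agent.K6.H81.KS
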