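import Pool.Agent.K6.H81.KS.Stm

/-! Piece BRI: minimality in terms of types gives minimality in terms of finite subsets. -/

namespace Pool.Agent.K6.H81.KS

namespace BriAux

open scoped Classical in
theorem degen_comap {V : Type} {m : ℕ} {H : SimpleGraph V} (hH : Degen m H) (T : Finset V) :
    Degen m (H.comap (Subtype.val : {x // x ∈ T} → V)) := by
  intro S hS
  obtain ⟨v, hv, hdg⟩ := hH (S.map (Function.Embedding.subtype _)) (by simpa using hS)
  rw [Finset.mem_map] at hv
  obtain ⟨w, hw, rfl⟩ := hv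
  refine ⟨w, hw, le_trans (le_of_eq ?_) hdg⟩
  unfold dg
  rw [Finset.filter_map, Finset.card_map]
  congr 1

theorem composed_comap {V : Type} {s : ℕ} {m : Fin s → ℕ} {G : SimpleGraph V}
    (hG : Composed m G) (T : Finset V) :
    Composed m (G.comap (Subtype.val : {x // x ∈ T} → V)) := by
  obtain ⟨H, hH, rfl⟩ := hG
  refine ⟨fun i => (H i).comap Subtype.val, fun i => degen_comap (hH i) T, ?_⟩
  ext x y
  simp only [SimpleGraph.comap_adj, SimpleGraph.iSup_adj]

end BriAux

open scoped Classical in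
theorem BRI : S_BRI := by
  intro s m n v hmin V G T hG hT
  obtain ⟨c⟩ := hmin {x // x ∈ T} (G.comap (Subtype.val : {x // x ∈ T} → V))
    (BriAux.composed_comap hG T) (by simpa using hT)
  refine ⟨fun x => if h : x ∈ T then (c ⟨x, h⟩ : ℕ) else 0, ?_, ?_⟩
  · intro x hx
    simp only [hx, dif_pos]
    exact (c ⟨x, hx⟩).2
  · intro x hx y hy hadj
    simp only [hx, hy, dif_pos]
    intro h
    have h1 : c ⟨x, hx⟩ = c ⟨y, hy⟩ := Fin.ext h
    exact c.valid (v := ⟨x, hx⟩) (w := ⟨y, hy⟩) (by simpa [SimpleGraph.comap_adj] using hadj) h1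

end Pool.Agent.K6.H81.KS
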