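import Pool.Agent.K6.H81.KS.Stm

/-! Piece CNT of the project of helper81 (`MP_c25521_co`, `MP_c4bd07_co`), by helper36. -/

set_option autoImplicit false

namespace Pool.Agent.K6.H81.KS

open Finset

namespace CNTp

open scoped Classical in
theorem dg_erase {V : Type} (H : SimpleGraph V) (T : Finset V) (v x : V) (hv : v ∈ T) :
    dg H T x = dg H (T.erase v) x + if H.Adj x v then 1 else 0 := by
  unfold dg
  have h : T.filter (fun w => H.Adj x w) =
      (T.erase v).filter (fun w => H.Adj x w) ∪ ({v} : Finset V).filter (fun w => H.Adj x w) := by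
    rw [← filter_union, union_comm, ← insert_eq, insert_erase hv]
  rw [h, card_union_of_disjoint]
  · congr 1
    rw [filter_singleton]
    split_ifs <;> simp
  · rw [disjoint_left]
    intro w hw hw'
    rw [mem_filter, mem_erase] at hw
    rw [mem_filter, mem_singleton] at hw'
    exact hw.1.1 hw'.1

open scoped Classical in
theorem step {V : Type} (H : SimpleGraph V) (T : Finset V) (v : V) (hv : v ∈ T) :
    ∑ x ∈ T, dg H T x = ∑ x ∈ T.erase v, dg H (T.erase v) x + 2 * dg H T v := by
  have h1 : ∑ x ∈ T, dg H T x = ∑ x ∈ T, (dg H (T.erase v) x + if H.Adj x v then 1 else 0) :=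
    sum_congr rfl fun x _ => dg_erase H T v x hv
  have h2 : ∑ x ∈ T, (if H.Adj x v then 1 else 0) = dg H T v := by
    unfold dg
    rw [card_filter]
    exact sum_congr rfl fun x _ => by simp only [H.adj_comm x v]
  have h3 : dg H (T.erase v) v = dg H T v := by
    have := dg_erase H T v v hv
    rw [if_neg (H.irrefl)] at this
    omega
  rw [h1, sum_add_distrib, h2, ← add_sum_erase T _ hv, h3]
  ring

end CNTp

theorem CNT : S_CNT := by
  intro V m H hH T
  induction T using Finset.strongInduction with
  | H T ih =>
    intro hT
    classical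
    rcases Nat.lt_or_ge m T.card with hlt | hge
    · obtain ⟨v, hv, hd⟩ := hH T (card_pos.1 (by omega))
      have hc := card_erase_of_mem hv
      have h1 := ih (T.erase v) (erase_ssubset hv) (by omega)
      rw [hc] at h1
      rw [CNTp.step H T v hv]
      obtain ⟨k, hk⟩ : ∃ k, T.card = k + 1 := ⟨T.card - 1, by omega⟩
      rw [hk] at h1 ⊢
      rw [Nat.add_sub_cancel] at h1
      nlinarith
    · have he : T.card = m := le_antisymm hge hT
      have h2 : ∀ x ∈ T, dg H T x ≤ m - 1 := by
        intro x hx
        have h3 : T.filter (fun w => H.Adj x w) ⊆ T.erase x := by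
          intro w hw
          rw [mem_filter] at hw
          rw [mem_erase]
          exact ⟨fun h => H.irrefl (h ▸ hw.2), hw.1⟩
        have h4 := card_le_card h3
        rw [card_erase_of_mem hx, he] at h4
        unfold dg
        convert h4
      have h5 := sum_le_sum h2
      rw [sum_const, he, smul_eq_mul] at h5
      rcases Nat.eq_zero_or_pos m with h0 | h0
      · subst h0
        simp at h5 ⊢
        rw [card_eq_zero] at he
        subst he
        simp
      · obtain ⟨k, rfl⟩ : ∃ k, m = k + 1 := ⟨m - 1, by omega⟩
        rw [he]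
        rw [Nat.add_sub_cancel] at h5
        nlinarith

end Pool.Agent.K6.H81.KS
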