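import Pool.Agent.K6.H81.KS.Stm

/-! # Piece COL (helper5) -/

namespace Pool.Agent.K6.H81.KS

open Finset

theorem COL : S_COL := by
  classical
  intro V G T U f v hUT hf hcard
  obtain ⟨cl, hcl⟩ : ∃ cl : V → Finset V, ∀ x, cl x = if x ∈ U then {x} else {x, f x} :=
    ⟨_, fun _ => rfl⟩
  have hmem : ∀ x, x ∈ cl x := by
    intro x
    rw [hcl]
    split_ifs <;> simp
  have h1 : ((T \ U).image cl).card * 2 ≤ (T \ U).card := by
    rw [mul_comm]
    refine Finset.mul_card_image_le_card_of_maps_to (fun x hx => Finset.mem_image_of_mem cl hx) 2 ?_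
    intro b hb
    obtain ⟨x, hx, rfl⟩ := Finset.mem_image.1 hb
    rw [Finset.mem_sdiff] at hx
    obtain ⟨h2, h3, h4, h5, h6⟩ := hf x hx.1 hx.2
    have h7 : ({x, f x} : Finset V) ⊆ (T \ U).filter (fun a => cl a = cl x) := by
      intro y hy
      rw [Finset.mem_insert, Finset.mem_singleton] at hy
      rw [Finset.mem_filter, Finset.mem_sdiff]
      rcases hy with rfl | rfl
      · exact ⟨hx, rfl⟩
      · refine ⟨⟨h2, h3⟩, ?_⟩
        rw [hcl, hcl, if_neg h3, if_neg hx.2, h4, Finset.pair_comm]
    calc 2 = ({x, f x} : Finset V).card := (Finset.card_pair h6).symm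
      _ ≤ _ := Finset.card_le_card h7
  have h2 : (T.image cl).card ≤ (U.image cl).card + ((T \ U).image cl).card := by
    rw [← Finset.union_sdiff_of_subset hUT, Finset.image_union]
    refine (Finset.card_union_le _ _).trans ?_
    have : (U ∪ T \ U) \ U = T \ U := by
      rw [Finset.union_sdiff_of_subset hUT]
    rw [this]
  have h3 : (U.image cl).card ≤ U.card := Finset.card_image_le
  have h4 : (T \ U).card + U.card = T.card := Finset.card_sdiff_add_card_eq_card hUT
  have hK : (T.image cl).card ≤ v := by omega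
  refine ⟨fun x => if h : cl x ∈ T.image cl then ((T.image cl).equivFin ⟨cl x, h⟩ : ℕ) else 0,
    fun x hx => ?_, fun x hx y hy hxy he => ?_⟩
  · have h : cl x ∈ T.image cl := Finset.mem_image_of_mem cl hx
    simp only [dif_pos h]
    exact lt_of_lt_of_le (Fin.is_lt _) hK
  · have hx' : cl x ∈ T.image cl := Finset.mem_image_of_mem cl hx
    have hy' : cl y ∈ T.image cl := Finset.mem_image_of_mem cl hy
    simp only [dif_pos hx', dif_pos hy'] at he
    have h5 : (⟨cl x, hx'⟩ : {a // a ∈ T.image cl}) = ⟨cl y, hy'⟩ :=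
      (T.image cl).equivFin.injective (Fin.ext he)
    have h6 : cl x = cl y := congrArg Subtype.val h5
    have h7 : y ∈ cl x := h6 ▸ hmem y
    rw [hcl] at h7
    by_cases hxU : x ∈ U
    · rw [if_pos hxU, Finset.mem_singleton] at h7
      exact hxy.ne h7.symm
    · rw [if_neg hxU, Finset.mem_insert, Finset.mem_singleton] at h7
      rcases h7 with h7 | h7
      · exact hxy.ne h7.symm
      · obtain ⟨-, -, -, h8, -⟩ := hf x hx hxU
        rw [h7] at hxy
        exact h8 hxy

end Pool.Agent.K6.H81.KS
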