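import Pool.Agent.K6.H81.KS.Stm

/-! Piece CUT (helper41). -/

set_option autoImplicit false

namespace Pool.Agent.K6.H81.KS

theorem dg_le_inj {V : Type} {H H' : SimpleGraph V} {S S' : Finset V} {v v' : V} (φ : V → V)
    (h1 : ∀ w ∈ S, H.Adj v w → φ w ∈ S' ∧ H'.Adj v' (φ w))
    (h2 : ∀ w ∈ S, H.Adj v w → ∀ w' ∈ S, H.Adj v w' → φ w = φ w' → w = w') :
    dg H S v ≤ dg H' S' v' := by
  classical
  unfold dg
  apply Finset.card_le_card_of_injOn φ
  · intro w hw
    have hw' := Finset.mem_filter.mp (Finset.mem_coe.mp hw)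
    obtain ⟨h3, h4⟩ := h1 w hw'.1 hw'.2
    exact Finset.mem_coe.mpr (Finset.mem_filter.mpr ⟨h3, h4⟩)
  · intro w hw w' hw' he
    have hw1 := Finset.mem_filter.mp (Finset.mem_coe.mp hw)
    have hw2 := Finset.mem_filter.mp (Finset.mem_coe.mp hw')
    exact h2 w hw1.1 hw1.2 w' hw2.1 hw2.2 he

theorem dg_le_mono {V : Type} {H H' : SimpleGraph V} {S S' : Finset V} {v v' : V}
    (h1 : ∀ w ∈ S, H.Adj v w → w ∈ S' ∧ H'.Adj v' w) : dg H S v ≤ dg H' S' v' :=
  dg_le_inj id h1 (fun _ _ _ _ _ _ h => h)

theorem dg_pos_adj {V : Type} {H : SimpleGraph V} {S : Finset V} {v : V} {m : ℕ}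
    (h : m < dg H S v) : ∃ w ∈ S, H.Adj v w := by
  classical
  unfold dg at h
  have h1 : 0 < (S.filter (fun w => H.Adj v w)).card := by
    refine lt_of_le_of_lt (Nat.zero_le m) ?_
    convert h
  obtain ⟨w, hw⟩ := Finset.card_pos.mp h1
  exact ⟨w, (Finset.mem_filter.mp hw).1, (Finset.mem_filter.mp hw).2⟩

open Classical in
theorem CUT : S_CUT := by
  intro V m D A B a b hD hab haA hbA haB hbB hAB hnab
  by_contra hcon
  rw [not_or] at hcon
  obtain ⟨hS, hT⟩ := hcon
  unfold Degen at hS hT
  push Not at hS hT
  obtain ⟨S, hSne, hS⟩ := hS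
  obtain ⟨T, hTne, hT⟩ := hT
  have hcontr : ∀ W : Finset V, W.Nonempty → (∀ v ∈ W, m < dg D W v) → False := by
    intro W hW h
    obtain ⟨v, hv, hv'⟩ := hD W hW
    exact absurd (h v hv) (not_lt.mpr hv')
  -- S
  have hSA : ∀ v ∈ S, v ∈ A := by
    intro v hv
    obtain ⟨w, -, hw⟩ := dg_pos_adj (hS v hv)
    exact hw.1
  have hSab : a ∈ S ∧ b ∈ S := by
    by_contra hn
    refine hcontr S hSne fun v hv => lt_of_lt_of_le (hS v hv) (dg_le_mono ?_)
    intro w hw hadj
    refine ⟨hw, ?_⟩
    obtain ⟨_, _, _, h | ⟨h1, h2⟩ | ⟨h1, h2⟩⟩ := hadj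
    · exact h
    · exact absurd ⟨h1 ▸ hv, h2 ▸ hw⟩ hn
    · exact absurd ⟨h2 ▸ hw, h1 ▸ hv⟩ hn
  obtain ⟨haS, hbS⟩ := hSab
  -- T
  have hTB : ∀ v ∈ T, v ∈ B := by
    intro v hv
    obtain ⟨w, -, hw⟩ := dg_pos_adj (hT v hv)
    exact hw.1
  have hbT : b ∉ T := by
    intro hb
    obtain ⟨w, -, hw⟩ := dg_pos_adj (hT b hb)
    exact hw.2.2.1 rfl
  have haT : a ∈ T := by
    by_contra hn
    refine hcontr T hTne fun v hv => lt_of_lt_of_le (hT v hv) (dg_le_mono ?_)
    intro w hw hadj
    refine ⟨hw, ?_⟩
    obtain ⟨_, _, _, _, _, h | ⟨h1, _⟩ | ⟨h1, _⟩⟩ := hadj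
    · exact h
    · exact absurd (h1 ▸ hv) hn
    · exact absurd (h1 ▸ hw) hn
  by_cases hA : ∃ a' ∈ T, D.Adj a a'
  · by_cases hB : ∃ b' ∈ T, D.Adj b b'
    · obtain ⟨a', ha'T, ha'⟩ := hA
      obtain ⟨b', hb'T, hb'⟩ := hB
      have hTS : ∀ x ∈ T, x ∈ S → x ≠ a → False := by
        intro x hxT hxS hxa
        rcases hAB x (hSA x hxS) (hTB x hxT) with h | h
        · exact hxa h
        · exact hbT (h ▸ hxT)
      refine hcontr (S ∪ T) ⟨a, Finset.mem_union_left _ haS⟩ ?_
      intro v hv
      by_cases hva : v = a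
      · rw [hva]
        refine lt_of_lt_of_le (hS a haS) (dg_le_inj (fun w => if w = b then a' else w) ?_ ?_)
        · intro w hw hadj
          by_cases hwb : w = b
          · simp only [if_pos hwb]
            exact ⟨Finset.mem_union_right _ ha'T, ha'⟩
          · simp only [if_neg hwb]
            obtain ⟨_, _, _, h | ⟨_, h2⟩ | ⟨h1, _⟩⟩ := hadj
            · exact ⟨Finset.mem_union_left _ hw, h⟩
            · exact absurd h2 hwb
            · exact absurd h1 hab
        · intro w hw _ w' hw' _ he
          by_cases hwb : w = b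
          · by_cases hwb' : w' = b
            · rw [hwb, hwb']
            · simp only [if_pos hwb, if_neg hwb'] at he
              exact (hTS a' ha'T (he ▸ hw') (fun h => D.ne_of_adj ha' h.symm)).elim
          · by_cases hwb' : w' = b
            · simp only [if_neg hwb, if_pos hwb'] at he
              exact (hTS a' ha'T (he ▸ hw) (fun h => D.ne_of_adj ha' h.symm)).elim
            · simpa only [if_neg hwb, if_neg hwb'] using he
      by_cases hvb : v = b
      · rw [hvb]
        refine lt_of_lt_of_le (hS b hbS) (dg_le_inj (fun w => if w = a then b' else w) ?_ ?_)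
        · intro w hw hadj
          by_cases hwb : w = a
          · simp only [if_pos hwb]
            exact ⟨Finset.mem_union_right _ hb'T, hb'⟩
          · simp only [if_neg hwb]
            obtain ⟨_, _, _, h | ⟨h1, _⟩ | ⟨_, h2⟩⟩ := hadj
            · exact ⟨Finset.mem_union_left _ hw, h⟩
            · exact absurd h1.symm hab
            · exact absurd h2 hwb
        · have hb'a : b' ≠ a := by
            intro h
            rw [h] at hb'
            exact hnab hb'.symm
          intro w hw _ w' hw' _ he
          by_cases hwb : w = a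
          · by_cases hwb' : w' = a
            · rw [hwb, hwb']
            · simp only [if_pos hwb, if_neg hwb'] at he
              exact (hTS b' hb'T (he ▸ hw') hb'a).elim
          · by_cases hwb' : w' = a
            · simp only [if_neg hwb, if_pos hwb'] at he
              exact (hTS b' hb'T (he ▸ hw) hb'a).elim
            · simpa only [if_neg hwb, if_neg hwb'] using he
      rcases Finset.mem_union.mp hv with hvS | hvT
      · refine lt_of_lt_of_le (hS v hvS) (dg_le_mono ?_)
        intro w hw hadj
        obtain ⟨_, _, _, h | ⟨h1, _⟩ | ⟨h1, _⟩⟩ := hadj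
        · exact ⟨Finset.mem_union_left _ hw, h⟩
        · exact absurd h1 hva
        · exact absurd h1 hvb
      · refine lt_of_lt_of_le (hT v hvT) (dg_le_inj (fun w => if D.Adj v w then w else b) ?_ ?_)
        · intro w hw hadj
          by_cases hvw : D.Adj v w
          · simp only [if_pos hvw]
            exact ⟨Finset.mem_union_right _ hw, hvw⟩
          · simp only [if_neg hvw]
            obtain ⟨_, _, _, _, _, h | ⟨h1, _⟩ | ⟨_, h2⟩⟩ := hadj
            · exact absurd h hvw
            · exact absurd h1 hva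
            · exact ⟨Finset.mem_union_left _ hbS, h2⟩
        · intro w hw hadj w' hw' hadj' he
          by_cases hvw : D.Adj v w
          · by_cases hvw' : D.Adj v w'
            · simpa only [if_pos hvw, if_pos hvw'] using he
            · simp only [if_pos hvw, if_neg hvw'] at he
              exact absurd (he ▸ hw) hbT
          · by_cases hvw' : D.Adj v w'
            · simp only [if_neg hvw, if_pos hvw'] at he
              exact absurd (he.symm ▸ hw') hbT
            · have e1 : w = a := by
                obtain ⟨_, _, _, _, _, h | ⟨h1, _⟩ | ⟨h1, _⟩⟩ := hadj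
                · exact absurd h hvw
                · exact absurd h1 hva
                · exact h1
              have e2 : w' = a := by
                obtain ⟨_, _, _, _, _, h | ⟨h1, _⟩ | ⟨h1, _⟩⟩ := hadj'
                · exact absurd h hvw'
                · exact absurd h1 hva
                · exact h1
              rw [e1, e2]
    · push Not at hB
      refine hcontr T hTne fun v hv => lt_of_lt_of_le (hT v hv) (dg_le_mono ?_)
      intro w hw hadj
      refine ⟨hw, ?_⟩
      obtain ⟨_, _, _, _, _, h | ⟨_, h2⟩ | ⟨_, h2⟩⟩ := hadj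
      · exact h
      · exact absurd h2 (hB w hw)
      · exact absurd h2.symm (hB v hv)
  · push Not at hA
    refine hcontr (insert b (T.erase a)) ⟨b, Finset.mem_insert_self _ _⟩ ?_
    intro v hv
    rcases Finset.mem_insert.mp hv with rfl | hv
    · refine lt_of_lt_of_le (hT a haT) (dg_le_mono ?_)
      intro w hw hadj
      obtain ⟨_, _, _, _, hne, h | ⟨_, h2⟩ | ⟨h1, _⟩⟩ := hadj
      · exact absurd h (hA w hw)
      · exact ⟨Finset.mem_insert_of_mem (Finset.mem_erase.mpr ⟨hne.symm, hw⟩), h2⟩
      · exact absurd h1.symm hne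
    · obtain ⟨hva, hvT⟩ := Finset.mem_erase.mp hv
      refine lt_of_lt_of_le (hT v hvT) (dg_le_inj (fun w => if D.Adj v w then w else b) ?_ ?_)
      · intro w hw hadj
        by_cases hvw : D.Adj v w
        · simp only [if_pos hvw]
          refine ⟨Finset.mem_insert_of_mem (Finset.mem_erase.mpr ⟨?_, hw⟩), hvw⟩
          intro h
          rw [h] at hvw
          exact hA v hvT hvw.symm
        · simp only [if_neg hvw]
          obtain ⟨_, _, _, _, _, h | ⟨h1, _⟩ | ⟨_, h2⟩⟩ := hadj
          · exact absurd h hvw
          · exact absurd h1 hva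
          · exact ⟨Finset.mem_insert_self _ _, h2⟩
      · intro w hw hadj w' hw' hadj' he
        by_cases hvw : D.Adj v w
        · by_cases hvw' : D.Adj v w'
          · simpa only [if_pos hvw, if_pos hvw'] using he
          · simp only [if_pos hvw, if_neg hvw'] at he
            exact absurd (he ▸ hw) hbT
        · by_cases hvw' : D.Adj v w'
          · simp only [if_neg hvw, if_pos hvw'] at he
            exact absurd (he.symm ▸ hw') hbT
          · have e1 : w = a := by
              obtain ⟨_, _, _, _, _, h | ⟨h1, _⟩ | ⟨h1, _⟩⟩ := hadj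
              · exact absurd h hvw
              · exact absurd h1 hva
              · exact h1
            have e2 : w' = a := by
              obtain ⟨_, _, _, _, _, h | ⟨h1, _⟩ | ⟨h1, _⟩⟩ := hadj'
              · exact absurd h hvw'
              · exact absurd h1 hva
              · exact h1
            rw [e1, e2]

end Pool.Agent.K6.H81.KS
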