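import Pool.Agent.K6.H81.KS.Stm

/-! Clique separations. -/

namespace Pool.Agent.K6.H81.KS

open Finset

open scoped Classical in
theorem glue_clique {V : Type} {G : SimpleGraph V} {T A B : Finset V} {v : ℕ}
    (hcov : ∀ x ∈ T, x ∈ A ∨ x ∈ B)
    (hK : ∀ x ∈ A, x ∈ B → ∀ y ∈ A, y ∈ B → x ≠ y → G.Adj x y)
    (hsep : ∀ x ∈ A, ∀ y ∈ B, x ∉ B → y ∉ A → ¬ G.Adj x y)
    (hA : Col G A v) (hB : Col G B v) : Col G T v := by
  obtain ⟨c, hc1, hc2⟩ := hA
  obtain ⟨d, hd1, hd2⟩ := hB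
  rcases Nat.eq_zero_or_pos v with rfl | hv
  · have hT : ∀ x ∈ T, False := by
      intro x hx
      rcases hcov x hx with h | h
      · exact absurd (hc1 x h) (Nat.not_lt_zero _)
      · exact absurd (hd1 x h) (Nat.not_lt_zero _)
    exact ⟨fun _ => 0, fun x hx => (hT x hx).elim, fun x hx => (hT x hx).elim⟩
  let c' : V → Fin v := fun x => if h : c x < v then ⟨c x, h⟩ else ⟨0, hv⟩
  let d' : V → Fin v := fun x => if h : d x < v then ⟨d x, h⟩ else ⟨0, hv⟩
  have hc' : ∀ x ∈ A, (c' x : ℕ) = c x := by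
    intro x hx
    simp only [c', dif_pos (hc1 x hx)]
  have hd' : ∀ x ∈ B, (d' x : ℕ) = d x := by
    intro x hx
    simp only [d', dif_pos (hd1 x hx)]
  let I : Set V := {x | x ∈ A ∧ x ∈ B}
  have hcI : Set.InjOn c' I := by
    intro x hx y hy hxy
    by_contra hne
    have h1 := hc2 x hx.1 y hy.1 (hK x hx.1 hx.2 y hy.1 hy.2 hne)
    apply h1
    rw [← hc' x hx.1, ← hc' y hy.1, hxy]
  have hdI : Set.InjOn d' I := by
    intro x hx y hy hxy
    by_contra hne
    have h1 := hd2 x hx.2 y hy.2 (hK x hx.1 hx.2 y hy.1 hy.2 hne)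
    apply h1
    rw [← hd' x hx.2, ← hd' y hy.2, hxy]
  let e : {z // z ∈ d' '' I} ≃ {z // z ∈ c' '' I} :=
    (Equiv.Set.imageOfInjOn d' I hdI).symm.trans (Equiv.Set.imageOfInjOn c' I hcI)
  let π : Equiv.Perm (Fin v) := e.extendSubtype
  have hπ : ∀ x ∈ I, π (d' x) = c' x := by
    intro x hx
    have hm : d' x ∈ d' '' I := ⟨x, hx, rfl⟩
    have h1 : π (d' x) = e ⟨d' x, hm⟩ := Equiv.extendSubtype_apply_of_mem e (d' x) hm
    rw [h1]
    have h2 : (Equiv.Set.imageOfInjOn d' I hdI).symm ⟨d' x, hm⟩ = ⟨x, hx⟩ := by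
      rw [Equiv.symm_apply_eq]
      rfl
    simp only [e, Equiv.trans_apply, h2]
    rfl
  refine ⟨fun x => if x ∈ A then c x else (π (d' x) : ℕ), ?_, ?_⟩
  · intro x _
    by_cases h : x ∈ A
    · simp only [h, if_true]
      exact hc1 x h
    · simp only [h, if_false]
      exact (π (d' x)).2
  · intro x hx y hy hxy
    by_cases hxA : x ∈ A
    · by_cases hyA : y ∈ A
      · simp only [hxA, hyA, if_true]
        exact hc2 x hxA y hyA hxy
      · have hyB : y ∈ B := (hcov y hy).resolve_left hyA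
        have hxB : x ∈ B := by
          by_contra h
          exact hsep x hxA y hyB h hyA hxy
        simp only [hxA, hyA, if_true, if_false]
        rw [← hc' x hxA, ← hπ x ⟨hxA, hxB⟩]
        intro h
        have h1 := π.injective (Fin.ext h)
        apply hd2 x hxB y hyB hxy
        rw [← hd' x hxB, ← hd' y hyB, h1]
    · have hxB : x ∈ B := (hcov x hx).resolve_left hxA
      by_cases hyA : y ∈ A
      · have hyB : y ∈ B := by
          by_contra h
          exact hsep y hyA x hxB h hxA hxy.symm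
        simp only [hxA, hyA, if_true, if_false]
        rw [← hc' y hyA, ← hπ y ⟨hyA, hyB⟩]
        intro h
        have h1 := π.injective (Fin.ext h)
        apply hd2 x hxB y hyB hxy
        rw [← hd' x hxB, ← hd' y hyB, h1]
      · have hyB : y ∈ B := (hcov y hy).resolve_left hyA
        simp only [hxA, hyA, if_false]
        intro h
        have h1 := π.injective (Fin.ext h)
        apply hd2 x hxB y hyB hxy
        rw [← hd' x hxB, ← hd' y hyB, h1]

open scoped Classical in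
theorem sep_clique {V : Type} [Fintype V] (G : SimpleGraph V) (K : Finset V)
    (hpre : ¬ (G.induce {x : V | x ∉ K}).Preconnected) :
    ∃ A B : Finset V, (∀ x, x ∈ A ∨ x ∈ B) ∧ (∀ x ∈ A, x ∈ B → x ∈ K) ∧
      (∀ x ∈ A, ∀ y ∈ B, x ∉ B → y ∉ A → ¬ G.Adj x y) ∧
      A.card < Fintype.card V ∧ B.card < Fintype.card V := by
  unfold SimpleGraph.Preconnected at hpre
  push Not at hpre
  obtain ⟨x, y, hxy⟩ := hpre
  let A : Finset V := Finset.univ.filter (fun z => z ∈ K ∨
    ∃ h : z ∈ {x : V | x ∉ K}, (G.induce {x : V | x ∉ K}).Reachable x ⟨z, h⟩)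
  let B : Finset V := Finset.univ.filter (fun z => z ∈ K ∨
    ∃ h : z ∈ {x : V | x ∉ K}, ¬ (G.induce {x : V | x ∉ K}).Reachable x ⟨z, h⟩)
  have hA : ∀ z, z ∈ A ↔ (z ∈ K ∨
    ∃ h : z ∈ {x : V | x ∉ K}, (G.induce {x : V | x ∉ K}).Reachable x ⟨z, h⟩) := by
    intro z
    simp only [A, Finset.mem_filter, Finset.mem_univ, true_and]
  have hB : ∀ z, z ∈ B ↔ (z ∈ K ∨
    ∃ h : z ∈ {x : V | x ∉ K}, ¬ (G.induce {x : V | x ∉ K}).Reachable x ⟨z, h⟩) := by
    intro z
    simp only [B, Finset.mem_filter, Finset.mem_univ, true_and]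
  refine ⟨A, B, ?_, ?_, ?_, ?_, ?_⟩
  · intro z
    by_cases h1 : z ∈ K
    · exact Or.inl ((hA z).2 (Or.inl h1))
    by_cases h3 : (G.induce {x : V | x ∉ K}).Reachable x ⟨z, h1⟩
    · exact Or.inl ((hA z).2 (Or.inr ⟨h1, h3⟩))
    · exact Or.inr ((hB z).2 (Or.inr ⟨h1, h3⟩))
  · intro z hzA hzB
    rcases (hA z).1 hzA with h | ⟨h, h'⟩
    · exact h
    rcases (hB z).1 hzB with k | ⟨k, k'⟩
    · exact k
    exact absurd h' k'
  · intro z hz w hw hzB hwA hadj
    have hz1 : z ∉ K := fun h => hzB ((hB z).2 (Or.inl h))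
    have hw1 : w ∉ K := fun h => hwA ((hA w).2 (Or.inl h))
    rcases (hA z).1 hz with h | ⟨h, h'⟩
    · exact hz1 h
    rcases (hB w).1 hw with k | ⟨k, k'⟩
    · exact hw1 k
    apply k'
    refine h'.trans (SimpleGraph.Adj.reachable ?_)
    simpa [SimpleGraph.comap_adj] using hadj
  · have hy : (y : V) ∉ A := by
      intro h
      rcases (hA _).1 h with h | ⟨h, h'⟩
      · exact y.2 h
      · exact hxy h'
    exact Finset.card_lt_univ_of_notMem hy
  · have hx : (x : V) ∉ B := by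
      intro h
      rcases (hB _).1 h with h | ⟨h, h'⟩
      · exact x.2 h
      · exact h' (SimpleGraph.Reachable.refl _)
    exact Finset.card_lt_univ_of_notMem hx

end Pool.Agent.K6.H81.KS
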