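import Pool.Agent.K6.H81.KS.Stm
import Pool.Agent.H168DD.TB

/-! Piece GAL (helper98). -/

namespace Pool.Agent.K6.H81.KS

open Finset

namespace GALp

variable {V : Type} (H : SimpleGraph V)

open scoped Classical in
theorem dg_eq (S : Finset V) (v : V) : dg H S v = ∑ w ∈ S, if H.Adj v w then 1 else 0 := by
  unfold dg
  rw [Finset.card_filter]

theorem dg_comm (S T : Finset V) : ∑ x ∈ S, dg H T x = ∑ y ∈ T, dg H S y := by
  classical
  simp only [dg_eq]
  rw [Finset.sum_comm]
  refine Finset.sum_congr rfl fun y _ => Finset.sum_congr rfl fun x _ => ?_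
  by_cases h : H.Adj x y
  · rw [if_pos h, if_pos h.symm]
  · rw [if_neg h, if_neg fun h' => h h'.symm]

open scoped Classical in
theorem dg_le (S T : Finset V) (x : V) (h : ∀ y ∈ S, H.Adj x y → y ∈ T) : dg H S x ≤ dg H T x := by
  unfold dg
  apply Finset.card_le_card
  intro y hy
  rw [Finset.mem_filter] at hy ⊢
  exact ⟨h y hy.1 hy.2, hy.2⟩

theorem dg_split {S T : Finset V} (hST : S ⊆ T) (x : V) [DecidableEq V] :
    dg H T x = dg H (T \ S) x + dg H S x := by
  classical
  rw [dg_eq, dg_eq, dg_eq, Finset.sum_sdiff hST]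

open scoped Classical in
theorem dg_lt (S : Finset V) (x : V) (hx : x ∈ S) : dg H S x + 1 ≤ S.card := by
  have h1 : S.filter (fun w => H.Adj x w) ⊆ S.erase x := by
    intro y hy
    rw [Finset.mem_filter] at hy
    rw [Finset.mem_erase]
    exact ⟨hy.2.ne', hy.1⟩
  have h2 := Finset.card_le_card h1
  rw [Finset.card_erase_of_mem hx] at h2
  have h3 : 0 < S.card := Finset.card_pos.2 ⟨x, hx⟩
  unfold dg
  omega

theorem sum_le (S : Finset V) (p : ℕ) (h : ∀ x ∈ S, dg H S x ≤ p) :
    ∑ x ∈ S, dg H S x ≤ 2 * (S.card / 2) * (p + 1) := by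
  have h1 : ∑ x ∈ S, dg H S x ≤ S.card * p := by
    have := Finset.sum_le_card_nsmul S (fun x => dg H S x) p h
    simpa using this
  have h2 : ∑ x ∈ S, dg H S x ≤ S.card * (S.card - 1) := by
    have := Finset.sum_le_card_nsmul S (fun x => dg H S x) (S.card - 1) (fun x hx => by
      have := dg_lt H S x hx
      omega)
    simpa using this
  rcases Nat.even_or_odd' S.card with ⟨q, hq | hq⟩
  · rw [hq] at h1 ⊢
    have : 2 * q / 2 = q := by omega
    rw [this]
    nlinarith
  · rw [hq] at h1 h2 ⊢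
    have h3 : (2 * q + 1) / 2 = q := by omega
    have h4 : 2 * q + 1 - 1 = 2 * q := by omega
    rw [h3]
    rw [h4] at h2
    rcases Nat.lt_or_ge p (2 * q) with h5 | h5
    · nlinarith
    · nlinarith

end GALp

open GALp

theorem GAL : S_GAL := by
  classical
  intro V H T p l hT hdeg hsum
  obtain ⟨U, m, hU, hUl, hm⟩ := H168DD.tutte_berge H T l
    (by rw [hT]; exact ⟨p + 1 + l, by ring⟩) (by
    intro A F hA hodd hdisj hsub hclos
    by_contra hcon
    push Not at hcon
    set W := F.biUnion id with hW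
    have hWT : W ⊆ T \ A := by
      intro x hx
      rw [hW, Finset.mem_biUnion] at hx
      obtain ⟨O, hO, hxO⟩ := hx
      exact hsub O hO hxO
    set R := (T \ A) \ W with hR
    have hpd : ∀ O ∈ F, ∀ O' ∈ F, O ≠ O' → Disjoint (id O) (id O') := hdisj
    have hnW : ∀ y, y ∈ W → ∃ O ∈ F, y ∈ O := by
      intro y hy
      rw [hW, Finset.mem_biUnion] at hy
      exact hy
    -- the degrees inside `T \ A`
    have hO : ∀ O ∈ F, ∀ x ∈ O, dg H (T \ A) x ≤ dg H O x := by
      intro O hO x hx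
      apply dg_le
      intro y hy hxy
      rw [Finset.mem_sdiff] at hy
      exact (hclos O hO x hx y hy.1 hxy).resolve_right hy.2
    have hRd : ∀ x ∈ R, dg H (T \ A) x ≤ dg H R x := by
      intro x hx
      apply dg_le
      intro y hy hxy
      rw [hR, Finset.mem_sdiff]
      refine ⟨hy, fun hyW => ?_⟩
      obtain ⟨O, hOF, hyO⟩ := hnW y hyW
      rw [hR, Finset.mem_sdiff, Finset.mem_sdiff] at hx
      rcases hclos O hOF y hyO x hx.1.1 hxy.symm with h | h
      · apply hx.2
        rw [hW, Finset.mem_biUnion]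
        exact ⟨O, hOF, h⟩
      · exact hx.1.2 h
    have e1 : ∑ x ∈ T, dg H T x = ∑ x ∈ T \ A, dg H T x + ∑ x ∈ A, dg H T x :=
      (Finset.sum_sdiff hA).symm
    have e2 : ∑ x ∈ A, dg H T x ≤ A.card * p := by
      have := Finset.sum_le_card_nsmul A (fun x => dg H T x) p (fun x hx => hdeg x (hA hx))
      simpa using this
    have e3 : ∑ x ∈ T \ A, dg H T x = ∑ x ∈ T \ A, dg H (T \ A) x + ∑ x ∈ T \ A, dg H A x := by
      rw [← Finset.sum_add_distrib]
      exact Finset.sum_congr rfl fun x _ => dg_split H hA x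
    have e4 : ∑ x ∈ T \ A, dg H A x ≤ A.card * p := by
      rw [dg_comm]
      refine le_trans (Finset.sum_le_sum fun x _ => ?_) e2
      apply dg_le
      intro y hy _
      exact (Finset.mem_sdiff.1 hy).1
    have e5 : ∑ x ∈ T \ A, dg H (T \ A) x =
        ∑ x ∈ R, dg H (T \ A) x + ∑ O ∈ F, ∑ x ∈ O, dg H (T \ A) x := by
      rw [← Finset.sum_sdiff hWT, hW, Finset.sum_biUnion hpd]
      rfl
    have e6 : ∑ x ∈ R, dg H (T \ A) x ≤ 2 * (R.card / 2) * (p + 1) := by
      refine le_trans (Finset.sum_le_sum hRd) (sum_le H R p fun x hx => ?_)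
      have hxT : x ∈ T := by
        rw [hR, Finset.mem_sdiff, Finset.mem_sdiff] at hx
        exact hx.1.1
      refine le_trans (dg_le H R T x fun y hy _ => ?_) (hdeg x hxT)
      rw [hR, Finset.mem_sdiff, Finset.mem_sdiff] at hy
      exact hy.1.1
    have e7 : ∑ O ∈ F, ∑ x ∈ O, dg H (T \ A) x ≤ ∑ O ∈ F, 2 * (O.card / 2) * (p + 1) := by
      refine Finset.sum_le_sum fun O hOF => ?_
      have hOT : O ⊆ T := fun x hx => (Finset.mem_sdiff.1 (hsub O hOF hx)).1
      refine le_trans (Finset.sum_le_sum (hO O hOF)) (sum_le H O p fun x hx => ?_)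
      exact le_trans (dg_le H O T x fun y hy _ => hOT hy) (hdeg x (hOT hx))
    rw [← Finset.sum_mul, ← Finset.mul_sum] at e7
    -- cardinalities
    have c1 : (T \ A).card + A.card = T.card := Finset.card_sdiff_add_card_eq_card hA
    have c2 : R.card + W.card = (T \ A).card := Finset.card_sdiff_add_card_eq_card hWT
    have c3 : W.card = ∑ O ∈ F, O.card := Finset.card_biUnion hpd
    have c4 : ∑ O ∈ F, O.card = 2 * (∑ O ∈ F, O.card / 2) + F.card := by
      rw [Finset.mul_sum, Finset.card_eq_sum_ones, ← Finset.sum_add_distrib]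
      refine Finset.sum_congr rfl fun O hOF => ?_
      have := hodd O hOF
      rw [Nat.odd_iff] at this
      omega
    set Q := ∑ O ∈ F, O.card / 2
    have c5 : A.card + Q + R.card / 2 ≤ p := by omega
    have c6 := Nat.mul_le_mul_left (p + 1) c5
    nlinarith)
  refine ⟨U, m, hU, hUl, fun x hx hxU => ?_⟩
  obtain ⟨h1, h2, h3⟩ := hm x (Finset.mem_sdiff.2 ⟨hx, hxU⟩)
  rw [Finset.mem_sdiff] at h1
  exact ⟨h1.1, h1.2, h2, h3⟩

end Pool.Agent.K6.H81.KS
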