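import Pool.Agent.K6.H81.KS.Stm

/-! Piece GLU (helper41). -/

set_option autoImplicit false

namespace Pool.Agent.K6.H81.KS

theorem glu_swap_lt (x y v : ℕ) (hx : x < v) (hy : y < v) (z : ℕ) (hz : z < v) :
    Equiv.swap x y z < v := by
  rw [Equiv.swap_apply_def]
  split_ifs <;> assumption

theorem glu_perm (v p q p' q' : ℕ) (hp : p < v) (hq : q < v) (hp' : p' < v) (hq' : q' < v)
    (h : p = q ↔ p' = q') : ∃ π : Equiv.Perm ℕ, (∀ z, z < v → π z < v) ∧ π p' = p ∧ π q' = q := by
  by_cases hpq : p = q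
  · have hpq' := h.mp hpq
    refine ⟨Equiv.swap p' p, fun z hz => glu_swap_lt _ _ _ hp' hp _ hz, Equiv.swap_apply_left _ _, ?_⟩
    rw [← hpq', ← hpq]
    exact Equiv.swap_apply_left _ _
  · have hpq' : p' ≠ q' := fun h' => hpq (h.mpr h')
    have hy : Equiv.swap p' p q' < v := glu_swap_lt _ _ _ hp' hp _ hq'
    refine ⟨(Equiv.swap p' p).trans (Equiv.swap (Equiv.swap p' p q') q), ?_, ?_, ?_⟩
    · intro z hz
      exact glu_swap_lt _ _ _ hy hq _ (glu_swap_lt _ _ _ hp' hp _ hz)
    · rw [Equiv.trans_apply, Equiv.swap_apply_left]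
      apply Equiv.swap_apply_of_ne_of_ne
      · intro h1
        have h2 : Equiv.swap p' p p' = Equiv.swap p' p q' := by
          rw [Equiv.swap_apply_left]; exact h1
        exact hpq' ((Equiv.swap p' p).injective h2)
      · exact hpq
    · rw [Equiv.trans_apply, Equiv.swap_apply_left]

open Classical in
theorem GLU : S_GLU := by
  intro V G T A B a b v c d hT haA hbA haB hbB hAB hnad hc hcp hd hdp hcd
  obtain ⟨π, hπ, hπa, hπb⟩ := glu_perm v (c a) (c b) (d a) (d b) (hc a haA) (hc b hbA) (hd a haB)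
    (hd b hbB) hcd
  have hT' : ∀ x ∈ T, x ∉ A → x ∈ B := fun x hx hxA => (hT x hx).resolve_left hxA
  have key : ∀ x ∈ T, ∀ y ∈ T, G.Adj x y → x ∈ A → y ∉ A → c x ≠ π (d y) := by
    intro x hx y hy hxy hxA hyA
    have hyB := hT' y hy hyA
    have hxB : x ∈ B := by
      by_contra hxB
      exact hnad x hxA y hyB hxB hyA hxy
    have hxe : c x = π (d x) := by
      rcases hAB x hxA hxB with rfl | rfl
      · exact hπa.symm
      · exact hπb.symm
    rw [hxe]
    intro h
    exact hdp x hxB y hyB hxy (π.injective h)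
  refine ⟨fun x => if x ∈ A then c x else π (d x), ?_, ?_⟩
  · intro x hx
    by_cases hxA : x ∈ A
    · simp only [if_pos hxA]
      exact hc x hxA
    · simp only [if_neg hxA]
      exact hπ _ (hd x (hT' x hx hxA))
  · intro x hx y hy hxy
    by_cases hxA : x ∈ A
    · by_cases hyA : y ∈ A
      · simp only [if_pos hxA, if_pos hyA]
        exact hcp x hxA y hyA hxy
      · simp only [if_pos hxA, if_neg hyA]
        exact key x hx y hy hxy hxA hyA
    · by_cases hyA : y ∈ A
      · simp only [if_neg hxA, if_pos hyA]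
        exact (key y hy x hx hxy.symm hyA hxA).symm
      · simp only [if_neg hxA, if_neg hyA]
        intro h
        exact hdp x (hT' x hx hxA) y (hT' y hy hyA) hxy (π.injective h)

end Pool.Agent.K6.H81.KS
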