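import Pool.Agent.K6.H81.KS.Reduce

/-! Every counterexample reduces to a 3-connected one: unified statement. -/

namespace Pool.Agent.K6.H81.KS

open Finset

/-- `(A, B)` is a separation of `G[T]` with `A ∩ B = {a, b}`, `a ≠ b` not adjacent, `A` and `B` not
everything -/
def Sep {V : Type} (G : SimpleGraph V) (T A B : Finset V) (a b : V) : Prop :=
  (∀ x, x ∈ T ↔ x ∈ A ∨ x ∈ B) ∧ (∀ x, (x ∈ A ∧ x ∈ B) ↔ (x = a ∨ x = b)) ∧
  (∀ x ∈ A, ∀ y ∈ B, x ∉ B → y ∉ A → ¬ G.Adj x y) ∧ a ≠ b ∧ ¬ G.Adj a b ∧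
  A.card < T.card ∧ B.card < T.card

/-- one reduction step: from `G[T]` to an induced subgraph, or, for a separation `(A, B)` of order two
of `G[T]` with `A ∩ B = {a, b}`, to `G[A] + ab` or to `G[A] / ab` -/
inductive Red {V : Type} [DecidableEq V] :
    SimpleGraph V → Finset V → SimpleGraph V → Finset V → Prop
  | sub (G : SimpleGraph V) (T A : Finset V) (h : A ⊆ T) : Red G T G A
  | add (G : SimpleGraph V) (T A B : Finset V) (a b : V) (h : Sep G T A B a b) :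
      Red G T (addE G A a b) A
  | mrg (G : SimpleGraph V) (T A B : Finset V) (a b : V) (h : Sep G T A B a b) :
      Red G T (mrg G A a b) (A.erase b)

/-- finitely many reduction steps -/
inductive Reds {V : Type} [DecidableEq V] :
    SimpleGraph V → Finset V → SimpleGraph V → Finset V → Prop
  | refl (G : SimpleGraph V) (T : Finset V) : Reds G T G T
  | step (G G₁ G₂ : SimpleGraph V) (T T₁ T₂ : Finset V) (h : Red G T G₁ T₁)
      (hs : Reds G₁ T₁ G₂ T₂) : Reds G T G₂ T₂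

lemma sepT {V : Type} (G : SimpleGraph V) (T X : Finset V) (hX : X ⊆ T)
    (hpre : ¬ (G.induce {x : V | x ∈ T ∧ x ∉ X}).Preconnected) :
    ∃ A B : Finset V, (∀ x, x ∈ T ↔ x ∈ A ∨ x ∈ B) ∧ (∀ x, (x ∈ A ∧ x ∈ B) ↔ x ∈ X) ∧
      (∀ x ∈ A, ∀ y ∈ B, x ∉ B → y ∉ A → ¬ G.Adj x y) ∧
      A.card < T.card ∧ B.card < T.card := by
  classical
  set W : Set V := {x : V | x ∈ T ∧ x ∉ X} with hW
  unfold SimpleGraph.Preconnected at hpre
  push Not at hpre
  obtain ⟨x, y, hxy⟩ := hpre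
  let A : Finset V := T.filter (fun z => z ∈ X ∨ ∃ h : z ∈ W, (G.induce W).Reachable x ⟨z, h⟩)
  let B : Finset V := T.filter (fun z => z ∈ X ∨ ∃ h : z ∈ W, ¬ (G.induce W).Reachable x ⟨z, h⟩)
  have hA : ∀ z, z ∈ A ↔ z ∈ T ∧ (z ∈ X ∨ ∃ h : z ∈ W, (G.induce W).Reachable x ⟨z, h⟩) := by
    intro z
    simp only [A, Finset.mem_filter]
  have hB : ∀ z, z ∈ B ↔ z ∈ T ∧ (z ∈ X ∨ ∃ h : z ∈ W, ¬ (G.induce W).Reachable x ⟨z, h⟩) := by
    intro z
    simp only [B, Finset.mem_filter]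
  refine ⟨A, B, ?_, ?_, ?_, ?_, ?_⟩
  · intro z
    constructor
    · intro hz
      by_cases h1 : z ∈ X
      · exact Or.inl ((hA z).2 ⟨hz, Or.inl h1⟩)
      by_cases h3 : (G.induce W).Reachable x ⟨z, hz, h1⟩
      · exact Or.inl ((hA z).2 ⟨hz, Or.inr ⟨⟨hz, h1⟩, h3⟩⟩)
      · exact Or.inr ((hB z).2 ⟨hz, Or.inr ⟨⟨hz, h1⟩, h3⟩⟩)
    · rintro (h | h)
      · exact ((hA z).1 h).1
      · exact ((hB z).1 h).1
  · intro z
    constructor
    · rintro ⟨hzA, hzB⟩
      rcases ((hA z).1 hzA).2 with h | ⟨h, h'⟩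
      · exact h
      rcases ((hB z).1 hzB).2 with k | ⟨k, k'⟩
      · exact k
      exact absurd h' k'
    · intro hz
      exact ⟨(hA z).2 ⟨hX hz, Or.inl hz⟩, (hB z).2 ⟨hX hz, Or.inl hz⟩⟩
  · intro z hz w hw hzB hwA hadj
    have hz1 : z ∉ X := fun h => hzB ((hB z).2 ⟨hX h, Or.inl h⟩)
    have hw1 : w ∉ X := fun h => hwA ((hA w).2 ⟨hX h, Or.inl h⟩)
    rcases ((hA z).1 hz).2 with h | ⟨h, h'⟩
    · exact hz1 h
    rcases ((hB w).1 hw).2 with k | ⟨k, k'⟩
    · exact hw1 k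
    apply k'
    refine h'.trans (SimpleGraph.Adj.reachable ?_)
    simpa [SimpleGraph.comap_adj] using hadj
  · have hy : (y : V) ∉ A := by
      intro h
      rcases ((hA _).1 h).2 with h | ⟨h, h'⟩
      · exact y.2.2 h
      · exact hxy h'
    apply Finset.card_lt_card
    refine Finset.ssubset_iff_subset_ne.2 ⟨Finset.filter_subset _ _, ?_⟩
    intro h
    exact hy (h ▸ y.2.1)
  · have hx : (x : V) ∉ B := by
      intro h
      rcases ((hB _).1 h).2 with h | ⟨h, h'⟩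
      · exact x.2.2 h
      · exact h' (SimpleGraph.Reachable.refl _)
    apply Finset.card_lt_card
    refine Finset.ssubset_iff_subset_ne.2 ⟨Finset.filter_subset _ _, ?_⟩
    intro h
    exact hx (h ▸ x.2.1)

/-- the properties of the reduced graph which is not `K`-colourable -/
def Good {V : Type} {s : ℕ} (m : Fin s → ℕ) (K : ℕ) (G : SimpleGraph V) (T : Finset V) : Prop :=
  3 * K < T.card + 2 * ∑ i, m i ∧ (∀ x ∈ T, K ≤ dg G T x) ∧
  ∀ X : Finset V, X ⊆ T → (X.card ≤ 2 ∨ ∀ x ∈ X, ∀ y ∈ X, x ≠ y → G.Adj x y) →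
    (G.induce {x | x ∈ T ∧ x ∉ X}).Preconnected

theorem reds (hCNT : S_CNT) (hARI : S_ARI) (hGAL : S_GAL) (hCOL : S_COL) (hCUT : S_CUT)
    (hGLU : S_GLU) {s : ℕ} (m : Fin s → ℕ) (K : ℕ) (hK : ks m ≤ K) {V : Type} [DecidableEq V] :
    ∀ (n : ℕ) (G : SimpleGraph V) (T : Finset V), T.card = n → Composed m G → ¬ Col G T K →
      ∃ (G' : SimpleGraph V) (T' : Finset V), Reds G T G' T' ∧ Composed m G' ∧
        ¬ Col G' T' K ∧ Good m K G' T' := by
  intro n
  induction n using Nat.strong_induction_on with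
  | _ n ih =>
  intro G T hT hG hnot
  have hlarge : 3 * K < T.card + 2 * ∑ i, m i := by
    by_contra h
    push Not at h
    exact hnot (smallK hCNT hARI hGAL hCOL m K hK G hG T.card T rfl h)
  -- a step followed by the induction hypothesis
  have go : ∀ (G₁ : SimpleGraph V) (T₁ : Finset V), Red G T G₁ T₁ → T₁.card < T.card →
      Composed m G₁ → ¬ Col G₁ T₁ K → ∃ (G' : SimpleGraph V) (T' : Finset V),
        Reds G T G' T' ∧ Composed m G' ∧ ¬ Col G' T' K ∧ Good m K G' T' := by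
    intro G₁ T₁ hr hc hG₁ hn₁
    obtain ⟨G', T', h1, h2⟩ := ih T₁.card (hT ▸ hc) G₁ T₁ rfl hG₁ hn₁
    exact ⟨G', T', Reds.step G G₁ G' T T₁ T' hr h1, h2⟩
  by_cases hdeg : ∀ x ∈ T, K ≤ dg G T x
  swap
  · push Not at hdeg
    obtain ⟨x, hx, hd⟩ := hdeg
    exact go G (T.erase x) (Red.sub G T _ (erase_subset x T)) (card_erase_lt_of_mem hx) hG
      (fun h => hnot (Col.extend hx hd h))
  by_cases hclq : ∀ X : Finset V, X ⊆ T → (∀ x ∈ X, ∀ y ∈ X, x ≠ y → G.Adj x y) →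
      (G.induce {x | x ∈ T ∧ x ∉ X}).Preconnected
  swap
  · push Not at hclq
    obtain ⟨X, hXT, hX, hX2⟩ := hclq
    obtain ⟨A, B, hcov, hAB, hsep, hAc, hBc⟩ := sepT G T X hXT hX2
    have hAT : A ⊆ T := fun x hx => (hcov x).2 (Or.inl hx)
    have hBT : B ⊆ T := fun x hx => (hcov x).2 (Or.inr hx)
    by_cases hA : Col G A K
    · by_cases hB : Col G B K
      · exact absurd (glue_clique (fun x hx => (hcov x).1 hx)
          (fun x hx hx' y hy hy' hne => hX x ((hAB x).1 ⟨hx, hx'⟩) y ((hAB y).1 ⟨hy, hy'⟩) hne)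
          hsep hA hB) hnot
      · exact go G B (Red.sub G T B hBT) hBc hG hB
    · exact go G A (Red.sub G T A hAT) hAc hG hA
  by_cases htwo : ∀ X : Finset V, X ⊆ T → X.card ≤ 2 →
      (G.induce {x | x ∈ T ∧ x ∉ X}).Preconnected
  · refine ⟨G, T, Reds.refl G T, hG, hnot, hlarge, hdeg, ?_⟩
    intro X hXT hX
    rcases hX with h | h
    · exact htwo X hXT h
    · exact hclq X hXT h
  push Not at htwo
  obtain ⟨X, hXT, hX, hX2⟩ := htwo
  have hXn : ¬ (∀ x ∈ X, ∀ y ∈ X, x ≠ y → G.Adj x y) := fun h => hX2 (hclq X hXT h)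
  push Not at hXn
  obtain ⟨a, haX, b, hbX, hab, hnadj⟩ := hXn
  have hXab : ∀ x, x ∈ X ↔ (x = a ∨ x = b) := by
    have h1 : ({a, b} : Finset V) = X := by
      apply Finset.eq_of_subset_of_card_le
      · intro x hx
        rw [Finset.mem_insert, Finset.mem_singleton] at hx
        rcases hx with rfl | rfl
        · exact haX
        · exact hbX
      · rw [Finset.card_pair hab]; exact hX
    intro x
    rw [← h1, Finset.mem_insert, Finset.mem_singleton]
  obtain ⟨A, B, hcov, hAB, hsep, hAc, hBc⟩ := sepT G T X hXT hX2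
  have hAT : A ⊆ T := fun x hx => (hcov x).2 (Or.inl hx)
  have hBT : B ⊆ T := fun x hx => (hcov x).2 (Or.inr hx)
  by_cases hA : Col G A K
  swap
  · exact go G A (Red.sub G T A hAT) hAc hG hA
  by_cases hB : Col G B K
  swap
  · exact go G B (Red.sub G T B hBT) hBc hG hB
  have hAB' : ∀ x, (x ∈ A ∧ x ∈ B) ↔ (x = a ∨ x = b) := fun x => (hAB x).trans (hXab x)
  have hBA' : ∀ x, (x ∈ B ∧ x ∈ A) ↔ (x = a ∨ x = b) := fun x => and_comm.trans (hAB' x)
  have ha := (hAB' a).2 (Or.inl rfl)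
  have hb := (hAB' b).2 (Or.inr rfl)
  have hS1 : Sep G T A B a b := ⟨hcov, hAB', hsep, hab, hnadj, hAc, hBc⟩
  have hS2 : Sep G T B A a b := ⟨fun x => (hcov x).trans or_comm, hBA',
    fun x hx y hy hxA hyB h => hsep y hy x hx hyB hxA h.symm, hab, hnadj, hBc, hAc⟩
  by_contra hcon
  apply hnot
  have key : ∀ (G₁ : SimpleGraph V) (T₁ : Finset V), Red G T G₁ T₁ → T₁.card < T.card →
      Composed m G₁ → Col G₁ T₁ K := by
    intro G₁ T₁ h1 h2 h3
    by_contra h4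
    exact hcon (go G₁ T₁ h1 h2 h3 h4)
  exact sep_step hCUT hGLU hG (fun x hx => (hcov x).1 hx) ha.1 hb.1 ha.2 hb.2
    (fun x hx hx' => (hAB' x).1 ⟨hx, hx'⟩) hsep hA hB
    (key _ _ (Red.add G T A B a b hS1) hAc)
    (key _ _ (Red.mrg G T A B a b hS1) ((card_erase_le).trans_lt hAc))
    (key _ _ (Red.add G T B A a b hS2) hBc)
    (key _ _ (Red.mrg G T B A a b hS2) ((card_erase_le).trans_lt hBc))

lemma col_of_colorable {V : Type} {G : SimpleGraph V} {T : Finset V} {v : ℕ}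
    (h : (G.induce (T : Set V)).Colorable v) : Col G T v := by
  classical
  obtain ⟨C⟩ := h
  refine ⟨fun x => if hx : x ∈ T then (C ⟨x, hx⟩ : ℕ) else 0, ?_, ?_⟩
  · intro x hx
    simp only [hx, dif_pos]
    exact (C ⟨x, hx⟩).2
  · intro x hx y hy hxy heq
    simp only [hx, hy, dif_pos] at heq
    have h1 : (G.induce (T : Set V)).Adj ⟨x, hx⟩ ⟨y, hy⟩ := hxy
    exact C.valid h1 (Fin.ext heq)

end Pool.Agent.K6.H81.KS
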