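import Pool.Agent.K6.H81.KS.Small
import Pool.Agent.K6.H81.KS.Clq

namespace Pool.Agent.K6.H81.KS

open Finset

lemma dg_le_of_le {V : Type} {H H' : SimpleGraph V} (hle : H' ≤ H) (S : Finset V) (v : V) :
    dg H' S v ≤ dg H S v := by
  classical
  unfold dg
  apply card_le_card
  intro w hw
  rw [mem_filter] at hw ⊢
  exact ⟨hw.1, hle hw.2⟩

lemma Degen.mono {V : Type} {m : ℕ} {H H' : SimpleGraph V} (h : Degen m H) (hle : H' ≤ H) :
    Degen m H' := by
  intro S hS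
  obtain ⟨v, hv, hd⟩ := h S hS
  exact ⟨v, hv, (dg_le_of_le hle S v).trans hd⟩

lemma Composed.mono {V : Type} {s : ℕ} {m : Fin s → ℕ} {G G' : SimpleGraph V} (h : Composed m G)
    (hle : G' ≤ G) : Composed m G' := by
  obtain ⟨H, hH, rfl⟩ := h
  refine ⟨fun i => H i ⊓ G', fun i => (hH i).mono inf_le_left, ?_⟩
  ext u w
  rw [SimpleGraph.iSup_adj]
  constructor
  · intro hu
    have h1 := hle hu
    rw [SimpleGraph.iSup_adj] at h1
    obtain ⟨i, hi⟩ := h1
    exact ⟨i, hi, hu⟩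
  · rintro ⟨i, _, hi⟩
    exact hi

lemma comp_add {V : Type} {s : ℕ} {m : Fin s → ℕ} {H : Fin s → SimpleGraph V} {A : Finset V} {a b : V}
    (hH : ∀ i, Degen (m i) (H i)) (i0 : Fin s) (h0 : Degen (m i0) (addE (H i0) A a b)) :
    Composed m (addE (⨆ i, H i) A a b) := by
  classical
  have hc : Composed m (⨆ i, (if i = i0 then addE (H i0) A a b else H i)) := by
    refine ⟨_, ?_, rfl⟩
    intro i
    by_cases hi : i = i0
    · subst hi; simpa using h0
    · simpa [hi] using hH i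
  refine hc.mono ?_
  intro u w huw
  obtain ⟨h1, h2, h3, h4⟩ := huw
  rw [SimpleGraph.iSup_adj]
  rcases h4 with h | h | h
  · rw [SimpleGraph.iSup_adj] at h
    obtain ⟨i, hi⟩ := h
    refine ⟨i, ?_⟩
    by_cases hii : i = i0
    · subst hii
      simp only [if_true]
      exact ⟨h1, h2, h3, Or.inl hi⟩
    · simpa [hii] using hi
  · refine ⟨i0, ?_⟩
    simp only [if_true]
    exact ⟨h1, h2, h3, Or.inr (Or.inl h)⟩
  · refine ⟨i0, ?_⟩
    simp only [if_true]
    exact ⟨h1, h2, h3, Or.inr (Or.inr h)⟩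

lemma comp_mrg {V : Type} {s : ℕ} {m : Fin s → ℕ} {H : Fin s → SimpleGraph V} {B : Finset V} {a b : V}
    (hH : ∀ i, Degen (m i) (mrg (H i) B a b)) : Composed m (mrg (⨆ i, H i) B a b) := by
  have hc : Composed m (⨆ i, mrg (H i) B a b) := ⟨_, hH, rfl⟩
  refine hc.mono ?_
  intro u w huw
  obtain ⟨h1, h2, h3, h4, h5, h6⟩ := huw
  rw [SimpleGraph.iSup_adj]
  rcases h6 with h | ⟨h, h'⟩ | ⟨h, h'⟩
  · rw [SimpleGraph.iSup_adj] at h
    obtain ⟨i, hi⟩ := h
    exact ⟨i, h1, h2, h3, h4, h5, Or.inl hi⟩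
  · rw [SimpleGraph.iSup_adj] at h'
    obtain ⟨i, hi⟩ := h'
    exact ⟨i, h1, h2, h3, h4, h5, Or.inr (Or.inl ⟨h, hi⟩)⟩
  · rw [SimpleGraph.iSup_adj] at h'
    obtain ⟨i, hi⟩ := h'
    exact ⟨i, h1, h2, h3, h4, h5, Or.inr (Or.inr ⟨h, hi⟩)⟩

lemma cut_comp (hCUT : S_CUT) {V : Type} {s : ℕ} {m : Fin s → ℕ} {G : SimpleGraph V}
    (hG : Composed m G) {A B : Finset V} {a b : V} (hab : a ≠ b) (haA : a ∈ A) (hbA : b ∈ A)
    (haB : a ∈ B) (hbB : b ∈ B) (hAB : ∀ x ∈ A, x ∈ B → x = a ∨ x = b) (hn : ¬ G.Adj a b) :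
    Composed m (addE G A a b) ∨ Composed m (mrg G B a b) := by
  obtain ⟨H, hH, rfl⟩ := hG
  have hn' : ∀ i, ¬ (H i).Adj a b := by
    intro i hi
    exact hn (by rw [SimpleGraph.iSup_adj]; exact ⟨i, hi⟩)
  by_cases h : ∃ i, Degen (m i) (addE (H i) A a b)
  · obtain ⟨i0, h0⟩ := h
    exact Or.inl (comp_add hH i0 h0)
  · push Not at h
    right
    apply comp_mrg
    intro i
    rcases hCUT V (m i) (H i) A B a b (hH i) hab haA hbA haB hbB hAB (hn' i) with h1 | h1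
    · exact absurd h1 (h i)
    · exact h1

/-- properness of a colouring on a finset -/
def PC {V : Type} (G : SimpleGraph V) (T : Finset V) (v : ℕ) (c : V → ℕ) : Prop :=
  (∀ x ∈ T, c x < v) ∧ ∀ x ∈ T, ∀ y ∈ T, G.Adj x y → c x ≠ c y

lemma col_addE {V : Type} {G : SimpleGraph V} {A : Finset V} {a b : V} {v : ℕ} (hab : a ≠ b)
    (haA : a ∈ A) (hbA : b ∈ A) (h : Col (addE G A a b) A v) : ∃ c, PC G A v c ∧ c a ≠ c b := by
  obtain ⟨c, h1, h2⟩ := h
  refine ⟨c, ⟨h1, ?_⟩, ?_⟩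
  · intro x hx y hy hxy
    exact h2 x hx y hy ⟨hx, hy, hxy.ne, Or.inl hxy⟩
  · exact h2 a haA b hbA ⟨haA, hbA, hab, Or.inr (Or.inl ⟨rfl, rfl⟩)⟩

lemma col_mrg {V : Type} [DecidableEq V] {G : SimpleGraph V} {B : Finset V} {a b : V} {v : ℕ}
    (hab : a ≠ b) (haB : a ∈ B) (hbB : b ∈ B) (hn : ¬ G.Adj a b)
    (h : Col (mrg G B a b) (B.erase b) v) : ∃ c, PC G B v c ∧ c a = c b := by
  obtain ⟨c, h1, h2⟩ := h
  have haE : a ∈ B.erase b := mem_erase.2 ⟨hab, haB⟩
  refine ⟨Function.update c b (c a), ⟨?_, ?_⟩, ?_⟩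
  · intro x hx
    by_cases hxb : x = b
    · subst hxb; simpa using h1 a haE
    · rw [Function.update_of_ne hxb]; exact h1 x (mem_erase.2 ⟨hxb, hx⟩)
  · intro x hx y hy hxy
    by_cases hxb : x = b
    · subst hxb
      have hyx : y ≠ x := hxy.ne'
      have hya : a ≠ y := by rintro rfl; exact hn hxy.symm
      rw [Function.update_self, Function.update_of_ne hyx]
      exact h2 a haE y (mem_erase.2 ⟨hyx, hy⟩)
        ⟨haB, hy, hab, hyx, hya, Or.inr (Or.inl ⟨rfl, hxy⟩)⟩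
    · by_cases hyb : y = b
      · subst hyb
        have hxa : x ≠ a := by rintro rfl; exact hn hxy
        rw [Function.update_self, Function.update_of_ne hxb]
        exact h2 x (mem_erase.2 ⟨hxb, hx⟩) a haE
          ⟨hx, haB, hxb, hab, hxa, Or.inr (Or.inr ⟨rfl, hxy⟩)⟩
      · rw [Function.update_of_ne hxb, Function.update_of_ne hyb]
        exact h2 x (mem_erase.2 ⟨hxb, hx⟩) y (mem_erase.2 ⟨hyb, hy⟩)
          ⟨hx, hy, hxb, hyb, hxy.ne, Or.inl hxy⟩
  · rw [Function.update_self, Function.update_of_ne hab]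

lemma col_univ {V : Type} [Fintype V] {G : SimpleGraph V} {v : ℕ} (h : Col G univ v) :
    G.Colorable v := by
  obtain ⟨c, h1, h2⟩ := h
  refine ⟨SimpleGraph.Coloring.mk (fun x => (⟨c x, h1 x (mem_univ _)⟩ : Fin v)) ?_⟩
  intro x y hxy heq
  exact h2 x (mem_univ _) y (mem_univ _) hxy (congrArg Fin.val heq)

/-- colouring across a separation of order at most two -/
lemma sep_step (hCUT : S_CUT) (hGLU : S_GLU) {V : Type} [DecidableEq V] {s : ℕ} {m : Fin s → ℕ}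
    {G : SimpleGraph V} (hG : Composed m G) {v : ℕ} {T A B : Finset V} {a b : V}
    (hcov : ∀ x ∈ T, x ∈ A ∨ x ∈ B) (haA : a ∈ A) (hbA : b ∈ A) (haB : a ∈ B) (hbB : b ∈ B)
    (hAB : ∀ x ∈ A, x ∈ B → x = a ∨ x = b)
    (hsep : ∀ x ∈ A, ∀ y ∈ B, x ∉ B → y ∉ A → ¬ G.Adj x y)
    (hA : Col G A v) (hB : Col G B v)
    (h1 : Composed m (addE G A a b) → Col (addE G A a b) A v)
    (h2 : Composed m (mrg G A a b) → Col (mrg G A a b) (A.erase b) v)
    (h3 : Composed m (addE G B a b) → Col (addE G B a b) B v)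
    (h4 : Composed m (mrg G B a b) → Col (mrg G B a b) (B.erase b) v) : Col G T v := by
  by_contra hnot
  have key : ∀ c d, PC G A v c → PC G B v d → ¬ (c a = c b ↔ d a = d b) := by
    intro c d hc hd hiff
    exact hnot (hGLU V G T A B a b v c d hcov haA hbA haB hbB hAB hsep
      hc.1 hc.2 hd.1 hd.2 hiff)
  obtain ⟨c0, hc0⟩ := hA
  obtain ⟨d0, hd0⟩ := hB
  have hc0' : PC G A v c0 := hc0
  have hd0' : PC G B v d0 := hd0
  have hab : a ≠ b := by
    rintro rfl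
    exact key c0 d0 hc0' hd0' (by simp)
  have hnadj : ¬ G.Adj a b := by
    intro h
    have h1 : c0 a ≠ c0 b := hc0.2 a haA b hbA h
    have h2 : d0 a ≠ d0 b := hd0.2 a haB b hbB h
    exact key c0 d0 hc0' hd0' (by simp [h1, h2])
  have hBA : ∀ x ∈ B, x ∈ A → x = a ∨ x = b := fun x hx hx' => hAB x hx' hx
  have r1 : (∃ c, PC G A v c ∧ c a ≠ c b) ∨ (∃ d, PC G B v d ∧ d a = d b) := by
    rcases cut_comp hCUT hG hab haA hbA haB hbB hAB hnadj with h | h
    · exact Or.inl (col_addE hab haA hbA (h1 h))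
    · exact Or.inr (col_mrg hab haB hbB hnadj (h4 h))
  have r2 : (∃ d, PC G B v d ∧ d a ≠ d b) ∨ (∃ c, PC G A v c ∧ c a = c b) := by
    rcases cut_comp hCUT hG hab haB hbB haA hbA hBA hnadj with h | h
    · exact Or.inl (col_addE hab haB hbB (h3 h))
    · exact Or.inr (col_mrg hab haA hbA hnadj (h2 h))
  rcases r1 with ⟨c1, hc1, hc1'⟩ | ⟨d1, hd1, hd1'⟩
  · rcases r2 with ⟨d2, hd2, hd2'⟩ | ⟨c2, hc2, hc2'⟩
    · exact key c1 d2 hc1 hd2 (by simp [hc1', hd2'])
    · by_cases h : d0 a = d0 b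
      · exact key c2 d0 hc2 hd0' (by simp [hc2', h])
      · exact key c1 d0 hc1 hd0' (by simp [hc1', h])
  · rcases r2 with ⟨d2, hd2, hd2'⟩ | ⟨c2, hc2, hc2'⟩
    · by_cases h : c0 a = c0 b
      · exact key c0 d1 hc0' hd1 (by simp [hd1', h])
      · exact key c0 d2 hc0' hd2 (by simp [hd2', h])
    · exact key c2 d1 hc2 hd1 (by simp [hc2', hd1'])

/-- `G[A]` -/
def rst {V : Type} (G : SimpleGraph V) (A : Finset V) : SimpleGraph V where
  Adj u w := u ∈ A ∧ w ∈ A ∧ G.Adj u w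
  symm := ⟨fun _ _ h => ⟨h.2.1, h.1, h.2.2.symm⟩⟩
  loopless := ⟨fun _ h => G.irrefl h.2.2⟩

/-- The class of pairs (graph, vertex set) generated from vertex sets with at most `N` elements by
adding vertices of degree less than `v`, by clique separations (of any order) and by separations of
order at most two. -/
inductive Dec {V : Type} [DecidableEq V] (N v : ℕ) : SimpleGraph V → Finset V → Prop
  | small (G : SimpleGraph V) (T : Finset V) (h : T.card ≤ N) : Dec N v G T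
  | add (G : SimpleGraph V) (T : Finset V) (x : V) (hx : x ∈ T) (hd : dg G T x < v)
      (h : Dec N v G (T.erase x)) : Dec N v G T
  | clq (G : SimpleGraph V) (T A B : Finset V) (hcov : ∀ x ∈ T, x ∈ A ∨ x ∈ B)
      (hK : ∀ x ∈ A, x ∈ B → ∀ y ∈ A, y ∈ B → x ≠ y → G.Adj x y)
      (hsep : ∀ x ∈ A, ∀ y ∈ B, x ∉ B → y ∉ A → ¬ G.Adj x y)
      (hA : Dec N v (rst G A) A) (hB : Dec N v (rst G B) B) : Dec N v G T
  | sep (G : SimpleGraph V) (T A B : Finset V) (a b : V) (hcov : ∀ x ∈ T, x ∈ A ∨ x ∈ B)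
      (haA : a ∈ A) (hbA : b ∈ A) (haB : a ∈ B) (hbB : b ∈ B)
      (hAB : ∀ x ∈ A, x ∈ B → x = a ∨ x = b)
      (hsep : ∀ x ∈ A, ∀ y ∈ B, x ∉ B → y ∉ A → ¬ G.Adj x y)
      (hA : Dec N v (rst G A) A) (hB : Dec N v (rst G B) B)
      (h1 : Dec N v (addE G A a b) A) (h2 : Dec N v (mrg G A a b) (A.erase b))
      (h3 : Dec N v (addE G B a b) B) (h4 : Dec N v (mrg G B a b) (B.erase b)) : Dec N v G T

lemma rst_le {V : Type} (G : SimpleGraph V) (A : Finset V) : rst G A ≤ G := by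
  rintro u w ⟨h1, h2, h3⟩
  exact h3

lemma col_of_rst {V : Type} {G : SimpleGraph V} {A : Finset V} {v : ℕ} (h : Col (rst G A) A v) :
    Col G A v := by
  obtain ⟨c, h1, h2⟩ := h
  exact ⟨c, h1, fun x hx y hy hxy => h2 x hx y hy ⟨hx, hy, hxy⟩⟩

theorem dec_col (hCNT : S_CNT) (hARI : S_ARI) (hGAL : S_GAL) (hCOL : S_COL) (hCUT : S_CUT)
    (hGLU : S_GLU) {s : ℕ} (m : Fin s → ℕ) {V : Type} [DecidableEq V] (G : SimpleGraph V)
    (T : Finset V) (hdec : Dec (ks m + 2 * tt m) (ks m) G T) : Composed m G → Col G T (ks m) := by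
  induction hdec with
  | small G T h =>
    intro hG
    exact small hCNT hARI hGAL hCOL m G hG T.card T rfl h
  | add G T x hx hd h ih =>
    intro hG
    exact Col.extend hx hd (ih hG)
  | clq G T A B hcov hK hsep hA hB ihA ihB =>
    intro hG
    exact glue_clique hcov hK hsep (col_of_rst (ihA (hG.mono (rst_le G A))))
      (col_of_rst (ihB (hG.mono (rst_le G B))))
  | sep G T A B a b hcov haA hbA haB hbB hAB hsep hA hB h1 h2 h3 h4 ihA ihB ih1 ih2 ih3 ih4 =>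
    intro hG
    exact sep_step hCUT hGLU hG hcov haA hbA haB hbB hAB hsep
      (col_of_rst (ihA (hG.mono (rst_le G A)))) (col_of_rst (ihB (hG.mono (rst_le G B))))
      ih1 ih2 ih3 ih4

theorem reduce (hCNT : S_CNT) (hARI : S_ARI) (hGAL : S_GAL) (hCOL : S_COL) (hCUT : S_CUT)
    (hGLU : S_GLU) (hBRI : S_BRI) (hSEP : S_SEP) {s : ℕ} (m : Fin s → ℕ)
    (h3 : ∀ (V : Type) [Fintype V] (G : SimpleGraph V), Composed m G →
      ks m + 2 * tt m < Fintype.card V → (∀ x, ks m ≤ dg G univ x) →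
      (∀ a b : V, (G.induce {x | x ≠ a ∧ x ≠ b}).Connected) →
      (∀ K : Finset V, (∀ x ∈ K, ∀ y ∈ K, x ≠ y → G.Adj x y) →
        (G.induce {x | x ∉ K}).Preconnected) → G.Colorable (ks m)) :
    ∀ (n : ℕ) (V : Type) [Fintype V] (G : SimpleGraph V), Composed m G → Fintype.card V = n →
      G.Colorable (ks m) := by
  classical
  intro n
  induction n using Nat.strong_induction_on with
  | _ n ih =>
  intro V _ G hG hcard
  have hbr : ∀ (V : Type) (G : SimpleGraph V) (T : Finset V), Composed m G → T.card < n →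
      Col G T (ks m) := by
    apply hBRI s m n (ks m)
    intro W _ G' hG' hlt
    exact ih _ hlt W G' hG' rfl
  obtain ⟨-, ht1, -⟩ := hARI s m
  by_cases hn : n ≤ ks m + 2 * tt m
  · exact col_univ (small hCNT hARI hGAL hCOL m G hG n univ (by rw [card_univ, hcard]) hn)
  push Not at hn
  by_cases hdeg : ∃ x, dg G univ x < ks m
  · obtain ⟨x, hx⟩ := hdeg
    refine col_univ (Col.extend (mem_univ x) hx (hbr V G _ hG ?_))
    rw [card_erase_of_mem (mem_univ x), card_univ, hcard]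
    omega
  push Not at hdeg
  by_cases hclq : ∀ K : Finset V, (∀ x ∈ K, ∀ y ∈ K, x ≠ y → G.Adj x y) →
        (G.induce {x | x ∉ K}).Preconnected
  swap
  · rw [not_forall] at hclq
    obtain ⟨K, hK⟩ := hclq
    rw [Classical.not_imp] at hK
    obtain ⟨hK1, hK2⟩ := hK
    obtain ⟨A, B, hcov, hAB, hsep, hAc, hBc⟩ := sep_clique G K hK2
    rw [hcard] at hAc hBc
    exact col_univ (glue_clique (fun x _ => hcov x)
      (fun x hx hx' y hy hy' hne => hK1 x (hAB x hx hx') y (hAB y hy hy') hne) hsep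
      (hbr V G A hG hAc) (hbr V G B hG hBc))
  by_cases hcon : ∀ a b : V, (G.induce {x | x ≠ a ∧ x ≠ b}).Connected
  · exact h3 V G hG (by omega) hdeg hcon hclq
  rw [not_forall] at hcon
  obtain ⟨a, hcon⟩ := hcon
  rw [not_forall] at hcon
  obtain ⟨b, hcon⟩ := hcon
  obtain ⟨A, B, hcov, haA, hbA, haB, hbB, hAB, hsep, hAc, hBc⟩ :=
    hSEP V G a b (by omega) hcon
  rw [hcard] at hAc hBc
  have hAe : (A.erase b).card < n := (card_erase_le).trans_lt hAc
  have hBe : (B.erase b).card < n := (card_erase_le).trans_lt hBc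
  exact col_univ (sep_step hCUT hGLU hG (fun x _ => hcov x) haA hbA haB hbB hAB hsep
    (hbr V G A hG hAc) (hbr V G B hG hBc) (fun h => hbr V _ A h hAc) (fun h => hbr V _ _ h hAe)
    (fun h => hbr V _ B h hBc) (fun h => hbr V _ _ h hBe))

end Pool.Agent.K6.H81.KS
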