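import Pool.Agent.K6.H81.KS.Stm

/-! Piece SEP: a disconnected `G - {a,b}` gives a separation. -/

namespace Pool.Agent.K6.H81.KS

open scoped Classical in
theorem SEP : S_SEP := by
  intro V _ G a b hcard hconn
  have hne : Nonempty {x : V | x ≠ a ∧ x ≠ b} := by
    by_contra hcon
    have hsub : (Finset.univ : Finset V) ⊆ {a, b} := by
      intro x _
      by_contra hx
      apply hcon
      refine ⟨⟨x, ?_, ?_⟩⟩
      · rintro rfl
        exact hx (by simp)
      · rintro rfl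
        exact hx (by simp)
    have h1 := Finset.card_le_card hsub
    have h2 : ({a, b} : Finset V).card ≤ 2 := Finset.card_le_two
    rw [Finset.card_univ] at h1
    omega
  have hpre : ¬ (G.induce {x : V | x ≠ a ∧ x ≠ b}).Preconnected := by
    intro h
    exact hconn ((SimpleGraph.connected_iff _).2 ⟨h, hne⟩)
  unfold SimpleGraph.Preconnected at hpre
  push Not at hpre
  obtain ⟨x, y, hxy⟩ := hpre
  let A : Finset V := Finset.univ.filter (fun z => z = a ∨ z = b ∨
    ∃ h : z ∈ {x : V | x ≠ a ∧ x ≠ b}, (G.induce {x : V | x ≠ a ∧ x ≠ b}).Reachable x ⟨z, h⟩)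
  let B : Finset V := Finset.univ.filter (fun z => z = a ∨ z = b ∨
    ∃ h : z ∈ {x : V | x ≠ a ∧ x ≠ b}, ¬ (G.induce {x : V | x ≠ a ∧ x ≠ b}).Reachable x ⟨z, h⟩)
  have hA : ∀ z, z ∈ A ↔ (z = a ∨ z = b ∨
    ∃ h : z ∈ {x : V | x ≠ a ∧ x ≠ b},
      (G.induce {x : V | x ≠ a ∧ x ≠ b}).Reachable x ⟨z, h⟩) := by
    intro z
    simp only [A, Finset.mem_filter, Finset.mem_univ, true_and]
  have hB : ∀ z, z ∈ B ↔ (z = a ∨ z = b ∨
    ∃ h : z ∈ {x : V | x ≠ a ∧ x ≠ b},
      ¬ (G.induce {x : V | x ≠ a ∧ x ≠ b}).Reachable x ⟨z, h⟩) := by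
    intro z
    simp only [B, Finset.mem_filter, Finset.mem_univ, true_and]
  refine ⟨A, B, ?_, ?_, ?_, ?_, ?_, ?_, ?_, ?_, ?_⟩
  · intro z
    by_cases h1 : z = a
    · exact Or.inl ((hA z).2 (Or.inl h1))
    by_cases h2 : z = b
    · exact Or.inl ((hA z).2 (Or.inr (Or.inl h2)))
    by_cases h3 : (G.induce {x : V | x ≠ a ∧ x ≠ b}).Reachable x ⟨z, h1, h2⟩
    · exact Or.inl ((hA z).2 (Or.inr (Or.inr ⟨⟨h1, h2⟩, h3⟩)))
    · exact Or.inr ((hB z).2 (Or.inr (Or.inr ⟨⟨h1, h2⟩, h3⟩)))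
  · exact (hA a).2 (Or.inl rfl)
  · exact (hA b).2 (Or.inr (Or.inl rfl))
  · exact (hB a).2 (Or.inl rfl)
  · exact (hB b).2 (Or.inr (Or.inl rfl))
  · intro z hzA hzB
    rcases (hA z).1 hzA with h | h | ⟨h, h'⟩
    · exact Or.inl h
    · exact Or.inr h
    rcases (hB z).1 hzB with k | k | ⟨k, k'⟩
    · exact Or.inl k
    · exact Or.inr k
    exact absurd h' k'
  · intro z hz w hw hzB hwA hadj
    have hz1 : z ≠ a := fun h => hzB ((hB z).2 (Or.inl h))
    have hz2 : z ≠ b := fun h => hzB ((hB z).2 (Or.inr (Or.inl h)))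
    have hw1 : w ≠ a := fun h => hwA ((hA w).2 (Or.inl h))
    have hw2 : w ≠ b := fun h => hwA ((hA w).2 (Or.inr (Or.inl h)))
    rcases (hA z).1 hz with h | h | ⟨h, h'⟩
    · exact hz1 h
    · exact hz2 h
    rcases (hB w).1 hw with k | k | ⟨k, k'⟩
    · exact hw1 k
    · exact hw2 k
    apply k'
    refine h'.trans (SimpleGraph.Adj.reachable ?_)
    simpa [SimpleGraph.comap_adj] using hadj
  · have hy : (y : V) ∉ A := by
      intro h
      rcases (hA _).1 h with h | h | ⟨h, h'⟩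
      · exact y.2.1 h
      · exact y.2.2 h
      · exact hxy h'
    exact Finset.card_lt_univ_of_notMem hy
  · have hx : (x : V) ∉ B := by
      intro h
      rcases (hB _).1 h with h | h | ⟨h, h'⟩
      · exact x.2.1 h
      · exact x.2.2 h
      · exact h' (SimpleGraph.Reachable.refl _)
    exact Finset.card_lt_univ_of_notMem hx

end Pool.Agent.K6.H81.KS
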