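import Pool.Agent.K6.H81.KS.Stm

namespace Pool.Agent.K6.H81.KS

open Finset

section
open scoped Classical

lemma dg_mono {V : Type} (H : SimpleGraph V) {S T : Finset V} (h : S ⊆ T) (v : V) :
    dg H S v ≤ dg H T v := by
  unfold dg
  exact card_le_card (filter_subset_filter _ h)

lemma dg_iSup_le {V : Type} {s : ℕ} (H : Fin s → SimpleGraph V) (T : Finset V) (x : V) :
    dg (⨆ i, H i) T x ≤ ∑ i, dg (H i) T x := by
  unfold dg
  have h : (T.filter (fun w => (⨆ i, H i).Adj x w)) ⊆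
      (univ : Finset (Fin s)).biUnion (fun i => T.filter (fun w => (H i).Adj x w)) := by
    intro w hw
    rw [mem_filter] at hw
    obtain ⟨hw1, hw2⟩ := hw
    rw [SimpleGraph.iSup_adj] at hw2
    obtain ⟨i, hi⟩ := hw2
    rw [mem_biUnion]
    exact ⟨i, mem_univ _, mem_filter.2 ⟨hw1, hi⟩⟩
  exact (card_le_card h).trans card_biUnion_le

lemma dg_compl {V : Type} (G : SimpleGraph V) (T : Finset V) (x : V) (hx : x ∈ T) :
    dg Gᶜ T x + dg G T x + 1 = T.card := by
  have h2 : T.filter (fun w => G.Adj x w) ⊆ T.erase x := by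
    intro w hw
    rw [mem_filter] at hw
    exact mem_erase.2 ⟨hw.2.ne', hw.1⟩
  have h1 : dg Gᶜ T x = ((T.erase x) \ (T.filter (fun w => G.Adj x w))).card := by
    unfold dg
    congr 1
    ext w
    simp only [mem_filter, mem_sdiff, mem_erase, SimpleGraph.compl_adj]
    constructor
    · rintro ⟨h1, h2, h3⟩
      exact ⟨⟨h2.symm, h1⟩, fun h => h3 h.2⟩
    · rintro ⟨⟨h1, h2⟩, h3⟩
      exact ⟨h2, h1.symm, fun h => h3 ⟨h2, h⟩⟩
  have h5 : dg G T x = (T.filter (fun w => G.Adj x w)).card := rfl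
  rw [h1, card_sdiff_of_subset h2, card_erase_of_mem hx, h5]
  have h3 := card_le_card h2
  rw [card_erase_of_mem hx] at h3
  have h4 : 0 < T.card := card_pos.2 ⟨x, hx⟩
  omega

/-- extend a colouring to one more vertex of small degree -/
lemma Col.extend {V : Type} [DecidableEq V] {G : SimpleGraph V} {T : Finset V} {v : ℕ} {x : V} (hx : x ∈ T)
    (hd : dg G T x < v) (h : Col G (T.erase x) v) : Col G T v := by
  obtain ⟨c, hc1, hc2⟩ := h
  have h1 : ((T.filter (fun w => G.Adj x w)).image c).card < (range v).card := by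
    rw [card_range]
    exact card_image_le.trans_lt hd
  obtain ⟨k, hk1, hk2⟩ := exists_mem_notMem_of_card_lt_card h1
  rw [mem_range] at hk1
  refine ⟨Function.update c x k, ?_, ?_⟩
  · intro y hy
    by_cases hyx : y = x
    · subst hyx; simpa using hk1
    · rw [Function.update_of_ne hyx]
      exact hc1 y (mem_erase.2 ⟨hyx, hy⟩)
  · intro y hy z hz hyz
    by_cases hyx : y = x
    · subst hyx
      have hzy : z ≠ y := hyz.ne'
      rw [Function.update_self, Function.update_of_ne hzy]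
      rintro rfl
      exact hk2 (mem_image.2 ⟨z, mem_filter.2 ⟨hz, hyz⟩, rfl⟩)
    · by_cases hzx : z = x
      · subst hzx
        rw [Function.update_self, Function.update_of_ne hyx]
        rintro h
        exact hk2 (h ▸ mem_image.2 ⟨y, mem_filter.2 ⟨hy, hyz.symm⟩, rfl⟩)
      · rw [Function.update_of_ne hyx, Function.update_of_ne hzx]
        exact hc2 y (mem_erase.2 ⟨hyx, hy⟩) z (mem_erase.2 ⟨hzx, hz⟩) hyz

/-- few vertices: few colours -/
lemma Col.of_card {V : Type} (G : SimpleGraph V) {T : Finset V} {v : ℕ} (h : T.card ≤ v) :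
    Col G T v := by
  classical
  refine ⟨fun x => if hx : x ∈ T then (T.equivFin ⟨x, hx⟩ : ℕ) else 0, ?_, ?_⟩
  · intro x hx
    simp only [hx, dif_pos]
    exact (T.equivFin ⟨x, hx⟩).2.trans_le h
  · intro x hx y hy hxy heq
    simp only [hx, hy, dif_pos] at heq
    have h1 := T.equivFin.injective (Fin.ext heq)
    exact hxy.ne (congrArg Subtype.val h1)

theorem smallK (hCNT : S_CNT) (hARI : S_ARI) (hGAL : S_GAL) (hCOL : S_COL)
    {V : Type} {s : ℕ} (m : Fin s → ℕ) (K : ℕ) (hK : ks m ≤ K) (G : SimpleGraph V)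
    (hG : Composed m G) :
    ∀ (n : ℕ) (T : Finset V), T.card = n → n + 2 * ∑ i, m i ≤ 3 * K → Col G T K := by
  obtain ⟨H, hH, rfl⟩ := hG
  intro n
  induction n using Nat.strong_induction_on with
  | _ n ih =>
  intro T hT hn
  by_cases hsmall : T.card ≤ K
  · exact Col.of_card _ hsmall
  push Not at hsmall
  by_cases hdeg : ∃ x ∈ T, dg (⨆ i, H i) T x < K
  · obtain ⟨x, hx, hd⟩ := hdeg
    have hc : (T.erase x).card = n - 1 := by rw [card_erase_of_mem hx, hT]
    have hpos : 0 < T.card := card_pos.2 ⟨x, hx⟩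
    exact Col.extend hx hd (ih (n - 1) (by omega) (T.erase x) hc (by omega))
  push Not at hdeg
  obtain ⟨p, hp⟩ : ∃ p, T.card = K + 1 + p := ⟨T.card - (K + 1), by omega⟩
  have hks : ks m = ∑ i, m i + tt m := rfl
  obtain ⟨hA1, hA2, hA3⟩ := hARI s m
  set M := ∑ i, m i with hM
  obtain ⟨t, ht⟩ : ∃ t, K = M + t := ⟨K - M, by omega⟩
  have htt : tt m ≤ t := by omega
  have hA1' : 2 * SS m + 2 ≤ t * (t + 1) :=
    hA1.trans (Nat.mul_le_mul htt (Nat.succ_le_succ htt))
  -- degree sums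
  have hmi : ∀ i, m i ≤ T.card := by
    intro i
    have : m i ≤ M := single_le_sum (f := m) (fun _ _ => Nat.zero_le _) (mem_univ i)
    omega
  have hsum : (∑ x ∈ T, dg (⨆ i, H i) T x) + (∑ i, m i * (m i + 1)) ≤ 2 * M * T.card := by
    calc (∑ x ∈ T, dg (⨆ i, H i) T x) + (∑ i, m i * (m i + 1))
        ≤ (∑ x ∈ T, ∑ i, dg (H i) T x) + (∑ i, m i * (m i + 1)) := by
          gcongr with x hx
          exact dg_iSup_le H T x
      _ = ∑ i, ((∑ x ∈ T, dg (H i) T x) + m i * (m i + 1)) := by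
          rw [sum_comm, sum_add_distrib]
      _ ≤ ∑ i, 2 * m i * T.card := sum_le_sum (fun i _ => hCNT V (m i) (H i) (hH i) T (hmi i))
      _ = 2 * M * T.card := by rw [← sum_mul, ← mul_sum]
  have hlow : T.card * K ≤ ∑ x ∈ T, dg (⨆ i, H i) T x := by
    calc T.card * K = ∑ _x ∈ T, K := by rw [sum_const, smul_eq_mul]
      _ ≤ _ := sum_le_sum (fun x hx => hdeg x hx)
  have htM : t ≤ M := by
    have h1 : T.card * K ≤ T.card * (2 * M) := by
      calc T.card * K ≤ (∑ x ∈ T, dg (⨆ i, H i) T x) + (∑ i, m i * (m i + 1)) :=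
            hlow.trans (Nat.le_add_right _ _)
        _ ≤ 2 * M * T.card := hsum
        _ = T.card * (2 * M) := by ring
    have h2 : K ≤ 2 * M := Nat.le_of_mul_le_mul_left h1 (by omega)
    omega
  -- complement degrees
  have hcd : ∀ x ∈ T, dg (⨆ i, H i)ᶜ T x ≤ p := by
    intro x hx
    have h1 := dg_compl (⨆ i, H i) T x hx
    have h2 := hdeg x hx
    omega
  have hcs : (∑ x ∈ T, dg (⨆ i, H i)ᶜ T x) + (∑ x ∈ T, dg (⨆ i, H i) T x) + T.card = T.card * T.card := by
    have h1 : ∑ x ∈ T, (dg (⨆ i, H i)ᶜ T x + dg (⨆ i, H i) T x + 1) = ∑ _x ∈ T, T.card :=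
      sum_congr rfl (fun x hx => dg_compl _ T x hx)
    rw [sum_add_distrib, sum_add_distrib, sum_const, sum_const, smul_eq_mul, smul_eq_mul, mul_one] at h1
    exact h1
  have hq : (∑ i, m i * (m i + 1)) = (∑ i, m i ^ 2) + M := by
    rw [hM, ← sum_add_distrib]
    exact sum_congr rfl (fun i _ => by ring)
  have hmain : 2 * (p * (p + 1)) < ∑ x ∈ T, dg (⨆ i, H i)ᶜ T x := by
    have hpt : p + 1 ≤ 2 * t := by omega
    set X := ∑ x ∈ T, dg (⨆ i, H i)ᶜ T x
    set Y := ∑ x ∈ T, dg (⨆ i, H i) T x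
    set Q := ∑ i, m i ^ 2
    have hTc : T.card = M + t + 1 + p := by omega
    rw [hq] at hsum
    rw [hTc] at hsum hcs
    have e1 : p * (p + 1) ≤ p * (2 * t) := Nat.mul_le_mul_left _ hpt
    nlinarith [e1, hsum, hcs, hA1', hA3]
  have hpK : p + 1 ≤ K := by omega
  obtain ⟨U, f, hU1, hU2, hf⟩ := hGAL V (⨆ i, H i)ᶜ T p (K - 1 - p) (by omega) hcd hmain
  refine hCOL V _ T U f K hU1 ?_ (by omega)
  intro x hx hxU
  obtain ⟨h1, h2, h3, h4⟩ := hf x hx hxU
  rw [SimpleGraph.compl_adj] at h4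
  exact ⟨h1, h2, h3, h4.2, h4.1⟩

theorem small (hCNT : S_CNT) (hARI : S_ARI) (hGAL : S_GAL) (hCOL : S_COL)
    {V : Type} {s : ℕ} (m : Fin s → ℕ) (G : SimpleGraph V) (hG : Composed m G)
    (n : ℕ) (T : Finset V) (hT : T.card = n) (hn : n ≤ ks m + 2 * tt m) : Col G T (ks m) := by
  have hks : ks m = ∑ i, m i + tt m := rfl
  exact smallK hCNT hARI hGAL hCOL m (ks m) le_rfl G hG n T hT (by omega)

end

end Pool.Agent.K6.H81.KS
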