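import Mathlib

/-! Klein-Schoenheim conjecture (unions of degenerate graphs): definitions and statements of pieces. -/

namespace Pool.Agent.K6.H81.KS

open Finset

open scoped Classical in
/-- number of neighbours of `v` in `S` -/
noncomputable def dg {V : Type} (H : SimpleGraph V) (S : Finset V) (v : V) : ℕ :=
  (S.filter (fun w => H.Adj v w)).card

/-- `H` is `m`-degenerate -/
def Degen {V : Type} (m : ℕ) (H : SimpleGraph V) : Prop :=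
  ∀ S : Finset V, S.Nonempty → ∃ v ∈ S, dg H S v ≤ m

/-- `G` is `(m_1,...,m_s)`-composed -/
def Composed {V : Type} {s : ℕ} (m : Fin s → ℕ) (G : SimpleGraph V) : Prop :=
  ∃ H : Fin s → SimpleGraph V, (∀ i, Degen (m i) (H i)) ∧ G = ⨆ i, H i

/-- the sum of `m_i m_j` over `i < j` -/
def SS {s : ℕ} (m : Fin s → ℕ) : ℕ := ∑ i, ∑ j, if i < j then m i * m j else 0

/-- `t = floor((1 + sqrt(1 + 8 S)) / 2)` -/
noncomputable def tt {s : ℕ} (m : Fin s → ℕ) : ℕ :=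
  ⌊(1 + Real.sqrt (1 + 8 * (SS m : ℝ))) / 2⌋₊

/-- the number of colours of the conjecture -/
noncomputable def ks {s : ℕ} (m : Fin s → ℕ) : ℕ := ∑ i, m i + tt m

/-- the vertices of `T` have a proper colouring with colours `< v` -/
def Col {V : Type} (G : SimpleGraph V) (T : Finset V) (v : ℕ) : Prop :=
  ∃ c : V → ℕ, (∀ x ∈ T, c x < v) ∧ ∀ x ∈ T, ∀ y ∈ T, G.Adj x y → c x ≠ c y

/-- `D[A] + ab` (all other vertices isolated) -/
def addE {V : Type} (D : SimpleGraph V) (A : Finset V) (a b : V) : SimpleGraph V where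
  Adj u w := u ∈ A ∧ w ∈ A ∧ u ≠ w ∧ (D.Adj u w ∨ (u = a ∧ w = b) ∨ (u = b ∧ w = a))
  symm := ⟨by
    rintro u w ⟨h1, h2, h3, h4⟩
    refine ⟨h2, h1, h3.symm, ?_⟩
    rcases h4 with h | ⟨h, h'⟩ | ⟨h, h'⟩
    · exact Or.inl h.symm
    · exact Or.inr (Or.inr ⟨h', h⟩)
    · exact Or.inr (Or.inl ⟨h', h⟩)⟩
  loopless := ⟨by rintro u ⟨_, _, h, _⟩; exact h rfl⟩

/-- `D[B]` with `b` merged into `a` (`b` and the vertices outside `B` are isolated) -/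
def mrg {V : Type} (D : SimpleGraph V) (B : Finset V) (a b : V) : SimpleGraph V where
  Adj u w := u ∈ B ∧ w ∈ B ∧ u ≠ b ∧ w ≠ b ∧ u ≠ w ∧
    (D.Adj u w ∨ (u = a ∧ D.Adj b w) ∨ (w = a ∧ D.Adj u b))
  symm := ⟨by
    rintro u w ⟨h1, h2, h3, h4, h5, h6⟩
    refine ⟨h2, h1, h4, h3, h5.symm, ?_⟩
    rcases h6 with h | ⟨h, h'⟩ | ⟨h, h'⟩
    · exact Or.inl h.symm
    · exact Or.inr (Or.inr ⟨h, h'.symm⟩)
    · exact Or.inr (Or.inl ⟨h, h'.symm⟩)⟩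
  loopless := ⟨by rintro u ⟨_, _, _, _, h, _⟩; exact h rfl⟩

/-- CNT: twice the number of edges in `T` is at most `2m|T| - m(m+1)`. -/
def S_CNT : Prop := ∀ (V : Type) (m : ℕ) (H : SimpleGraph V), Degen m H →
  ∀ T : Finset V, m ≤ T.card → (∑ x ∈ T, dg H T x) + m * (m + 1) ≤ 2 * m * T.card

/-- ARI: `2S + 2 <= t(t+1)` and `(sum m)^2 = sum m^2 + 2S`. -/
def S_ARI : Prop := ∀ (s : ℕ) (m : Fin s → ℕ), 2 * SS m + 2 ≤ tt m * (tt m + 1) ∧ 1 ≤ tt m ∧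
  (∑ i, m i) ^ 2 = (∑ i, m i ^ 2) + 2 * SS m

/-- GAL: a graph on `2(p+1)+l` vertices with maximum degree at most `p` and more than `p(p+1)` edges
has a matching missing at most `l` vertices. -/
def S_GAL : Prop := ∀ (V : Type) (H : SimpleGraph V) (T : Finset V) (p l : ℕ),
  T.card = 2 * (p + 1) + l → (∀ x ∈ T, dg H T x ≤ p) → 2 * (p * (p + 1)) < ∑ x ∈ T, dg H T x →
  ∃ (U : Finset V) (f : V → V), U ⊆ T ∧ U.card ≤ l ∧
    ∀ x ∈ T, x ∉ U → f x ∈ T ∧ f x ∉ U ∧ f (f x) = x ∧ H.Adj x (f x)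

/-- COL: colouring from a matching of non-edges. -/
def S_COL : Prop := ∀ (V : Type) (G : SimpleGraph V) (T U : Finset V) (f : V → V) (v : ℕ), U ⊆ T →
  (∀ x ∈ T, x ∉ U → f x ∈ T ∧ f x ∉ U ∧ f (f x) = x ∧ ¬ G.Adj x (f x) ∧ x ≠ f x) →
  T.card + U.card ≤ 2 * v → Col G T v

/-- CUT: degenerate graphs and separations of order two. -/
def S_CUT : Prop := ∀ (V : Type) (m : ℕ) (D : SimpleGraph V) (A B : Finset V) (a b : V), Degen m D →
  a ≠ b → a ∈ A → b ∈ A → a ∈ B → b ∈ B → (∀ x ∈ A, x ∈ B → x = a ∨ x = b) → ¬ D.Adj a b →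
  Degen m (addE D A a b) ∨ Degen m (mrg D B a b)

/-- GLU: gluing colourings along `{a, b}` (`a = b` allowed). -/
def S_GLU : Prop := ∀ (V : Type) (G : SimpleGraph V) (T A B : Finset V) (a b : V) (v : ℕ) (c d : V → ℕ),
  (∀ x ∈ T, x ∈ A ∨ x ∈ B) → a ∈ A → b ∈ A → a ∈ B → b ∈ B → (∀ x ∈ A, x ∈ B → x = a ∨ x = b) →
  (∀ x ∈ A, ∀ y ∈ B, x ∉ B → y ∉ A → ¬ G.Adj x y) →
  (∀ x ∈ A, c x < v) → (∀ x ∈ A, ∀ y ∈ A, G.Adj x y → c x ≠ c y) →
  (∀ x ∈ B, d x < v) → (∀ x ∈ B, ∀ y ∈ B, G.Adj x y → d x ≠ d y) →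
  (c a = c b ↔ d a = d b) → Col G T v

/-- BRI: minimality in terms of types gives minimality in terms of finite subsets. -/
def S_BRI : Prop := ∀ (s : ℕ) (m : Fin s → ℕ) (n v : ℕ),
  (∀ (W : Type) [Fintype W] (G : SimpleGraph W), Composed m G → Fintype.card W < n → G.Colorable v) →
  ∀ (V : Type) (G : SimpleGraph V) (T : Finset V), Composed m G → T.card < n → Col G T v

/-- SEP: a disconnected `G - {a,b}` gives a separation. -/
def S_SEP : Prop := ∀ (V : Type) [Fintype V] (G : SimpleGraph V) (a b : V), 2 < Fintype.card V →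
  ¬ (G.induce {x | x ≠ a ∧ x ≠ b}).Connected →
  ∃ A B : Finset V, (∀ x, x ∈ A ∨ x ∈ B) ∧ a ∈ A ∧ b ∈ A ∧ a ∈ B ∧ b ∈ B ∧
    (∀ x ∈ A, x ∈ B → x = a ∨ x = b) ∧ (∀ x ∈ A, ∀ y ∈ B, x ∉ B → y ∉ A → ¬ G.Adj x y) ∧
    A.card < Fintype.card V ∧ B.card < Fintype.card V

end Pool.Agent.K6.H81.KS
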